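import Pool.Agent.Q211.Thin.Peierls

/-!
Crossing probabilities of cylinders.
-/

namespace Pool.Agent.Q211.Thin

open MeasureTheory

/-- The parameter of the percolation. -/
noncomputable def p0 : ℝ := 599 / 600

instance : IsProbabilityMeasure (bern p0) :=
  bern_prob (by norm_num [p0]) (by norm_num [p0])

/-- Probability that the cylinder of length `L` and circumference `k` has no open crossing. -/
noncomputable def gam (k L : ℕ) [NeZero k] : ℝ :=
  (prodM p0 (Fin L × ZMod k × Bool)).real {w | ¬ Cr (cfg w) 0 L}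

variable {k : ℕ} [NeZero k]

theorem gam_inj {E : Type*} [Fintype E] {L : ℕ} (i : Fin L × ZMod k × Bool → E)
    (hi : Function.Injective i) :
    (prodM p0 E).real {w | ¬ Cr (cfg (fun f => w (i f))) 0 L} = gam k L :=
  real_map_inj p0 i hi {w | ¬ Cr (cfg w) 0 L}

theorem gam_seg {D L s : ℕ} (h : s + L ≤ D) :
    (prodM p0 (Fin D × ZMod k × Bool)).real {w | ¬ Cr (cfg w) s (s + L)} = gam k L := by
  have hi : Function.Injective (fun f : Fin L × ZMod k × Bool =>
      ((⟨s + f.1, by have := f.1.2; omega⟩, f.2.1, f.2.2) : Fin D × ZMod k × Bool)) := by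
    rintro ⟨a, b, c⟩ ⟨a', b', c'⟩ h
    simp only [Prod.mk.injEq, Fin.mk.injEq] at h
    have : a = a' := Fin.ext (by omega)
    rw [this, h.2.1, h.2.2]
  rw [← gam_inj _ hi]
  congr 1
  ext w
  apply not_congr
  have hs := cr_shift (cfg w) s 0 0 L
  rw [Nat.add_zero] at hs
  rw [← hs]
  apply cr_congr
  intro x _ hx
  funext j b
  unfold shift cfg
  rw [dif_pos (by omega : s + x < D), dif_pos hx]
  simp

theorem real_union_le {E : Type*} [Fintype E] (A B : Set (E → Bool)) :
    (prodM p0 E).real (A ∪ B) ≤ (prodM p0 E).real A + (prodM p0 E).real B :=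
  measureReal_union_le _ _

theorem real_mono {E : Type*} [Fintype E] {A B : Set (E → Bool)} (h : A ⊆ B) :
    (prodM p0 E).real A ≤ (prodM p0 E).real B :=
  measureReal_mono h (measure_ne_top _ _)

theorem nofull {D W s : ℕ} (h : s + W ≤ D) :
    (prodM p0 (Fin D × ZMod k × Bool)).real
      {w | ¬ ∃ x, s ≤ x ∧ x < s + W ∧ ∀ j, cfg w x j false = true} = (1 - p0 ^ k) ^ W := by
  have hi : Function.Injective (fun x : Fin W × ZMod k =>
      ((⟨s + x.1, by have := x.1.2; omega⟩, x.2, false) : Fin D × ZMod k × Bool)) := by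
    rintro ⟨a, b⟩ ⟨a', b'⟩ h
    simp only [Prod.mk.injEq, Fin.mk.injEq] at h
    have : a = a' := Fin.ext (by omega)
    rw [this, h.2.1]
  have hb := block p0 (E := Fin D × ZMod k × Bool)
    (fun (a : Fin W) (j : ZMod k) => (⟨s + a, by have := a.2; omega⟩, j, false)) hi
    (fun _ => {u | ∀ j, u j = true}ᶜ)
  rw [Finset.prod_const, Finset.card_univ, Fintype.card_fin, real_compl',
    prob_all_open p0 (by norm_num [p0]), ZMod.card] at hb
  rw [← hb]
  congr 1
  ext w
  constructor
  · intro h a hmem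
    apply h
    refine ⟨s + a, by omega, by have := a.2; omega, ?_⟩
    intro j
    unfold cfg
    rw [dif_pos (by have := a.2; omega)]
    exact hmem j
  · intro h ⟨x, h1, h2, h3⟩
    apply h ⟨x - s, by omega⟩
    intro j
    have := h3 j
    unfold cfg at this
    rw [dif_pos (by omega)] at this
    have h4 : s + (x - s) = x := by omega
    simp only [h4]
    exact this

theorem gam_le (hk : 2 ≤ k) (L : ℕ) : gam k L ≤ L * (1 / 100 : ℝ) ^ (k / 2 + 1) := by
  classical
  unfold gam
  have hsub : {w : Fin L × ZMod k × Bool → Bool | ¬ Cr (cfg w) 0 L} ⊆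
      ⋃ x : Fin L, {w | CP (cfg w) L (k / 2 + 1) ((x : ℕ), 0, true)} := by
    intro w hw
    obtain ⟨x, hx, h⟩ := noCr_cp hk _ L hw
    exact Set.mem_iUnion.2 ⟨⟨x, hx⟩, h⟩
  refine (measureReal_mono hsub (measure_ne_top _ _)).trans ?_
  refine (measureReal_iUnion_fintype_le _).trans ?_
  calc _ ≤ ∑ _x : Fin L, (1 / 100 : ℝ) ^ (k / 2 + 1) := by
        apply Finset.sum_le_sum
        intro x _
        have := prob_cp (k := k) p0 (by norm_num [p0]) L (k / 2 + 1) ((x : ℕ), 0, true)
        have h6 : 6 * (1 - p0) = 1 / 100 := by norm_num [p0]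
        rw [h6] at this
        exact this
    _ = L * (1 / 100 : ℝ) ^ (k / 2 + 1) := by simp

omit [NeZero k] in
theorem cp_mono {c : Cfg k} {L L' n : ℕ} (h : L ≤ L') {e : Ed k} (hc : CP c L n e) :
    CP c L' n e := by
  obtain ⟨code, h1, h2⟩ := hc
  exact ⟨code, fun t ht => ⟨by have := (h1 t ht).1; omega, (h1 t ht).2⟩, h2⟩

theorem noreach_prob (hk : 2 ≤ k) {W R : ℕ} (hWR : W ≤ R) :
    (prodM p0 (Fin R × ZMod k × Bool)).real
      {w | ¬ ∃ j, (Op (cfg w) 0 W).Reachable (0, 0) (W, j)} ≤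
      W * (1 / 100 : ℝ) ^ (k / 2 + 1) + 1 / 99 := by
  classical
  have hsub : {w : Fin R × ZMod k × Bool → Bool |
      ¬ ∃ j, (Op (cfg w) 0 W).Reachable (0, 0) (W, j)} ⊆
      (⋃ x : Fin W, {w | CP (cfg w) R (k / 2 + 1) ((x : ℕ), 0, true)}) ∪
      (⋃ x : Fin W, {w | CP (cfg w) R (x + 1) ((x : ℕ), 0, true)}) := by
    intro w hw
    rcases noReach_cp hk _ W hw with ⟨x, hx, h⟩ | ⟨x, hx, h⟩
    · exact Or.inl (Set.mem_iUnion.2 ⟨⟨x, hx⟩, cp_mono hWR h⟩)
    · exact Or.inr (Set.mem_iUnion.2 ⟨⟨x, hx⟩, cp_mono hWR h⟩)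
  have h6 : 6 * (1 - p0) = 1 / 100 := by norm_num [p0]
  refine (real_mono hsub).trans ((real_union_le _ _).trans ?_)
  apply add_le_add
  · refine (measureReal_iUnion_fintype_le _).trans ?_
    calc _ ≤ ∑ _x : Fin W, (1 / 100 : ℝ) ^ (k / 2 + 1) := by
          apply Finset.sum_le_sum
          intro x _
          have := prob_cp (k := k) p0 (by norm_num [p0]) R (k / 2 + 1) ((x : ℕ), 0, true)
          rw [h6] at this
          exact this
      _ = W * (1 / 100 : ℝ) ^ (k / 2 + 1) := by simp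
  · refine (measureReal_iUnion_fintype_le _).trans ?_
    calc _ ≤ ∑ x : Fin W, (1 / 100 : ℝ) ^ ((x : ℕ) + 1) := by
          apply Finset.sum_le_sum
          intro x _
          have := prob_cp (k := k) p0 (by norm_num [p0]) R (x + 1) ((x : ℕ), 0, true)
          rw [h6] at this
          exact this
      _ = ∑ x ∈ Finset.range W, (1 / 100 : ℝ) ^ (x + 1) :=
          Fin.sum_univ_eq_sum_range (fun x => (1 / 100 : ℝ) ^ (x + 1)) W
      _ ≤ 1 / 99 := by
          have h1 : ∀ W : ℕ, ∑ x ∈ Finset.range W, (1 / 100 : ℝ) ^ (x + 1) =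
              1 / 99 - (1 / 99) * (1 / 100) ^ W := by
            intro W
            induction W with
            | zero => simp
            | succ n ih =>
              rw [Finset.sum_range_succ, ih, pow_succ]
              ring
          rw [h1]
          have : (0 : ℝ) ≤ (1 / 99) * (1 / 100) ^ W := by positivity
          linarith

/-- from a given vertex of the layer `0` one reaches the layer `R` with good probability -/
theorem reach_prob (hk : 2 ≤ k) {W R : ℕ} (hWR : W ≤ R) :
    (prodM p0 (Fin R × ZMod k × Bool)).real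
      {w | ¬ ∃ j, (Op (cfg w) 0 R).Reachable (0, 0) (R, j)} ≤
      gam k R + (W * (1 / 100 : ℝ) ^ (k / 2 + 1) + 1 / 99) + (1 - p0 ^ k) ^ W := by
  have hsub : {w : Fin R × ZMod k × Bool → Bool |
      ¬ ∃ j, (Op (cfg w) 0 R).Reachable (0, 0) (R, j)} ⊆
      ({w | ¬ Cr (cfg w) 0 R} ∪ {w | ¬ ∃ j, (Op (cfg w) 0 W).Reachable (0, 0) (W, j)}) ∪
      {w | ¬ ∃ x, 0 ≤ x ∧ x < 0 + W ∧ ∀ j, cfg w x j false = true} := by
    intro w hw
    by_contra hcon
    simp only [Set.mem_union, not_or] at hcon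
    obtain ⟨⟨h1, h2⟩, h3⟩ := hcon
    have h1 := not_not.1 h1
    have h2 := not_not.1 h2
    have h3 := not_not.1 h3
    obtain ⟨x, _, hx, hfull⟩ := h3
    exact hw (point_glue (by omega) hWR hfull h1 h2)
  refine (real_mono hsub).trans ((real_union_le _ _).trans ?_)
  apply add_le_add
  · refine (real_union_le _ _).trans ?_
    apply add_le_add
    · exact le_rfl
    · exact noreach_prob hk hWR
  · exact (nofull (by omega)).le

theorem chain_cr {c : Cfg k} {t L W : ℕ} (hW : L = t + W) (N : ℕ)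
    (h1 : ∀ i ≤ N, Cr c (i * t) (i * t + L))
    (h2 : ∀ i < N, ∃ x, (i + 1) * t ≤ x ∧ x < (i + 1) * t + W ∧ ∀ j, c x j false = true) :
    Cr c 0 (N * t + L) := by
  induction N with
  | zero => simpa using h1 0 le_rfl
  | succ n ih =>
    have h3 := ih (fun i hi => h1 i (by omega)) (fun i hi => h2 i (by omega))
    obtain ⟨x, hx1, hx2, hx3⟩ := h2 n (by omega)
    have h4 := h1 (n + 1) le_rfl
    have e1 : (n + 1) * t = n * t + t := by ring
    rw [e1] at h4 hx1 hx2 ⊢
    exact cr_glue (Nat.zero_le _) hx1 (by omega) (by omega) hx3 h3 h4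

theorem gam_sub {t L W m N : ℕ} (hW : L = t + W) (hm : m ≤ N * t + L) :
    gam k m ≤ (N + 1) * gam k L + N * (1 - p0 ^ k) ^ W := by
  classical
  have hm' := gam_seg (k := k) (D := N * t + L) (L := m) (s := 0) (by omega)
  rw [← hm']
  have hsub : {w : Fin (N * t + L) × ZMod k × Bool → Bool | ¬ Cr (cfg w) 0 (0 + m)} ⊆
      (⋃ i : Fin (N + 1), {w | ¬ Cr (cfg w) (i * t) (i * t + L)}) ∪
      (⋃ i : Fin N, {w | ¬ ∃ x, (i + 1) * t ≤ x ∧ x < (i + 1) * t + W ∧
        ∀ j, cfg w x j false = true}) := by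
    intro w hw
    by_contra hcon
    apply hw
    apply cr_mono (Nat.zero_le _) (by omega : 0 + m ≤ N * t + L)
    apply chain_cr hW N
    · intro i hi
      by_contra h
      exact hcon (Or.inl (Set.mem_iUnion.2 ⟨⟨i, by omega⟩, h⟩))
    · intro i hi
      by_contra h
      exact hcon (Or.inr (Set.mem_iUnion.2 ⟨⟨i, hi⟩, h⟩))
  refine (real_mono hsub).trans ((real_union_le _ _).trans ?_)
  apply add_le_add
  · refine (measureReal_iUnion_fintype_le _).trans ?_
    apply le_of_eq
    calc _ = ∑ _i : Fin (N + 1), gam k L := by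
          apply Finset.sum_congr rfl
          intro i _
          apply gam_seg
          have h1 : (i : ℕ) ≤ N := by have := i.2; omega
          have h2 : (i : ℕ) * t ≤ N * t := Nat.mul_le_mul_right _ h1
          omega
      _ = (N + 1) * gam k L := by simp
  · refine (measureReal_iUnion_fintype_le _).trans ?_
    apply le_of_eq
    calc _ = ∑ _i : Fin N, (1 - p0 ^ k) ^ W := by
          apply Finset.sum_congr rfl
          intro i _
          apply nofull
          have h1 : (i : ℕ) + 1 ≤ N := by have := i.2; omega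
          have h2 : ((i : ℕ) + 1) * t ≤ N * t := Nat.mul_le_mul_right _ h1
          omega
      _ = N * (1 - p0 ^ k) ^ W := by simp

theorem gam_ge (L : ℕ) : 1 - (1 - (1 - p0) ^ k) ^ L ≤ gam k L := by
  classical
  have hb := block p0 (E := Fin L × ZMod k × Bool)
    (fun (a : Fin L) (j : ZMod k) => (a, j, true))
    (by
      rintro ⟨a, b⟩ ⟨a', b'⟩ h
      simp only [Prod.mk.injEq] at h
      rw [h.1, h.2.1])
    (fun _ => {fun _ => false}ᶜ)
  have h1 : (prodM p0 (ZMod k → Bool)) = (prodM p0 (ZMod k → Bool)) := rfl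
  have h2 : (prodM p0 (ZMod k)).real {fun _ => false} = (1 - p0) ^ k := by
    rw [measureReal_def, prodM_singleton]
    simp only [bern_false, Finset.prod_const, Finset.card_univ, ZMod.card]
    rw [ENNReal.toReal_pow, ENNReal.toReal_ofReal (by norm_num [p0])]
  rw [Finset.prod_const, Finset.card_univ, Fintype.card_fin, real_compl', h2] at hb
  rw [← hb]
  unfold gam
  have h3 : {w : Fin L × ZMod k × Bool → Bool | ¬ Cr (cfg w) 0 L} =
      {w : Fin L × ZMod k × Bool → Bool | Cr (cfg w) 0 L}ᶜ := rfl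
  rw [h3, real_compl']
  have h4 : (prodM p0 (Fin L × ZMod k × Bool)).real {w | Cr (cfg w) 0 L} ≤
      (prodM p0 (Fin L × ZMod k × Bool)).real {w | ∀ a, (fun j => w (a, j, true)) ∈
        ({fun _ => false}ᶜ : Set (ZMod k → Bool))} := by
    apply real_mono
    intro w hw a hmem
    obtain ⟨j, hj⟩ := cr_column (Nat.zero_le (a : ℕ)) a.2 hw
    unfold cfg at hj
    rw [dif_pos a.2] at hj
    have := congrFun hmem j
    rw [this] at hj
    exact absurd hj (by simp)
  linarith

theorem exists_half (k : ℕ) [NeZero k] : ∃ m, 1 / 2 ≤ gam k m := by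
  have h0 : (0 : ℝ) < (1 - p0) ^ k := by
    apply pow_pos; norm_num [p0]
  have h1 : (1 - p0) ^ k ≤ (1 : ℝ) := by
    apply pow_le_one₀ <;> norm_num [p0]
  obtain ⟨m, hm⟩ := exists_pow_lt_of_lt_one (show (0 : ℝ) < 1 / 2 by norm_num)
    (show 1 - (1 - p0) ^ k < (1 : ℝ) by linarith)
  refine ⟨m, ?_⟩
  have := gam_ge (k := k) m
  linarith

open Classical in
/-- The length at which the crossing probability drops to one half. -/
noncomputable def mm (k : ℕ) [NeZero k] : ℕ := Nat.find (exists_half k)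

theorem gam_mm (k : ℕ) [NeZero k] : 1 / 2 ≤ gam k (mm k) := Nat.find_spec (exists_half k)

theorem gam_lt (k : ℕ) [NeZero k] {L : ℕ} (h : L < mm k) : gam k L < 1 / 2 :=
  not_le.1 (Nat.find_min (exists_half k) h)

theorem mm_large (hk : 2 ≤ k) : 5 * 10 ^ k ≤ mm k := by
  have h1 := gam_mm k
  have h2 := gam_le hk (mm k)
  have h3 : (1 / 100 : ℝ) ^ (k / 2 + 1) ≤ (1 / 10) ^ (k + 1) := by
    have : (1 / 100 : ℝ) = (1 / 10) ^ 2 := by norm_num
    rw [this, ← pow_mul]
    apply pow_le_pow_of_le_one <;> try norm_num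
    omega
  have h4 : (1 / 2 : ℝ) ≤ mm k * (1 / 10) ^ (k + 1) :=
    (h1.trans h2).trans (mul_le_mul_of_nonneg_left h3 (Nat.cast_nonneg _))
  have h5 : (5 * 10 ^ k : ℝ) ≤ mm k := by
    have h6 : (1 / 10 : ℝ) ^ (k + 1) * (10 ^ (k + 1)) = 1 := by
      rw [← mul_pow]; norm_num
    have h7 : (0 : ℝ) < 10 ^ (k + 1) := by positivity
    have h8 := mul_le_mul_of_nonneg_right h4 h7.le
    rw [mul_assoc, h6, mul_one, pow_succ] at h8
    linarith
  exact_mod_cast h5

end Pool.Agent.Q211.Thin
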