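import Mathlib

/-!
Finite product Bernoulli measures: marginals and independence of blocks.
-/

namespace Pool.Agent.Q211.Thin

open MeasureTheory Set
open scoped ENNReal

/-- The Bernoulli law on `Bool` (mass `p` on `true`). -/
noncomputable def bern (p : ℝ) : Measure Bool :=
  ENNReal.ofReal p • Measure.dirac true + ENNReal.ofReal (1 - p) • Measure.dirac false

/-- I.i.d. Bernoulli coordinates indexed by `E`. -/
noncomputable def prodM (p : ℝ) (E : Type*) [Fintype E] : Measure (E → Bool) :=
  Measure.pi (fun _ : E => bern p)

theorem bern_prob {p : ℝ} (h0 : 0 ≤ p) (h1 : p ≤ 1) : IsProbabilityMeasure (bern p) := by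
  constructor
  simp only [bern, Measure.coe_add, Measure.coe_smul, Pi.add_apply, Pi.smul_apply, measure_univ,
    smul_eq_mul, mul_one]
  rw [← ENNReal.ofReal_add h0 (by linarith)]
  simp

theorem bern_true (p : ℝ) : bern p {true} = ENNReal.ofReal p := by
  simp [bern]

theorem bern_false (p : ℝ) : bern p {false} = ENNReal.ofReal (1 - p) := by
  simp [bern]

section
variable (p : ℝ) [IsProbabilityMeasure (bern p)]

instance prodM_prob (E : Type*) [Fintype E] : IsProbabilityMeasure (prodM p E) := by
  unfold prodM; infer_instance

theorem prodM_singleton {E : Type*} [Fintype E] (x : E → Bool) :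
    prodM p E {x} = ∏ e, bern p {x e} := by
  unfold prodM
  rw [Measure.pi_singleton]

theorem map_inj {E F : Type*} [Fintype E] [Fintype F] (i : F → E)
    (hi : Function.Injective i) :
    (prodM p E).map (fun w f => w (i f)) = prodM p F := by
  classical
  apply Measure.ext_of_singleton
  intro x
  rw [Measure.map_apply (measurable_pi_lambda _ fun f => measurable_pi_apply _)
    (measurableSet_singleton _), prodM_singleton]
  have hset : (fun (w : E → Bool) f => w (i f)) ⁻¹' {x} =
      Set.pi univ (Function.extend i (fun f => ({x f} : Set Bool)) (fun _ => univ)) := by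
    ext w
    simp only [mem_preimage, mem_singleton_iff, mem_pi, mem_univ, true_implies]
    constructor
    · intro h e
      by_cases he : ∃ f, i f = e
      · obtain ⟨f, rfl⟩ := he
        rw [hi.extend_apply]
        exact congrFun h f
      · rw [Function.extend_apply' _ _ _ he]
        trivial
    · intro h
      funext f
      have := h (i f)
      rw [hi.extend_apply] at this
      exact this
  rw [hset]
  unfold prodM
  rw [Measure.pi_pi]
  symm
  apply Fintype.prod_of_injective i hi
  · intro e he
    rw [Function.extend_apply' _ _ _ (by simpa using he)]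
    exact measure_univ
  · intro f
    rw [hi.extend_apply]

theorem real_map_inj {E F : Type*} [Fintype E] [Fintype F] (i : F → E)
    (hi : Function.Injective i) (A : Set (F → Bool)) :
    (prodM p E).real {w | (fun f => w (i f)) ∈ A} = (prodM p F).real A := by
  rw [measureReal_def, measureReal_def, ← map_inj p i hi,
    Measure.map_apply (measurable_pi_lambda _ fun f => measurable_pi_apply _)
    (Set.toFinite A).measurableSet]
  rfl

theorem block {I F E : Type*} [Fintype I] [Fintype F] [Fintype E] (i : I → F → E)
    (hi : Function.Injective (fun x : I × F => i x.1 x.2)) (A : I → Set (F → Bool)) :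
    (prodM p E).real {w | ∀ a, (fun f => w (i a f)) ∈ A a} =
      ∏ a, (prodM p F).real (A a) := by
  classical
  have h1 := real_map_inj p (fun x : I × F => i x.1 x.2) hi
    {w : I × F → Bool | ∀ a, (fun f => w (a, f)) ∈ A a}
  have h2 : (prodM p (I × F)).map (fun w a f => w (a, f)) =
      Measure.pi (fun _ : I => prodM p F) := by
    apply Measure.ext_of_singleton
    intro x
    rw [Measure.map_apply (measurable_pi_lambda _ fun a => measurable_pi_lambda _ fun f =>
      measurable_pi_apply _) (measurableSet_singleton _), Measure.pi_singleton]
    have hset : (fun (w : I × F → Bool) a f => w (a, f)) ⁻¹' {x} = {fun y => x y.1 y.2} := by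
      ext w
      simp only [mem_preimage, mem_singleton_iff]
      constructor
      · intro h
        funext ⟨a, f⟩
        exact congrFun (congrFun h a) f
      · intro h
        subst h
        rfl
    rw [hset, prodM_singleton, Fintype.prod_prod_type]
    apply Finset.prod_congr rfl
    intro a _
    rw [prodM_singleton]
  have h3 : (prodM p (I × F)).real {w : I × F → Bool | ∀ a, (fun f => w (a, f)) ∈ A a} =
      ∏ a, (prodM p F).real (A a) := by
    have h4 : (Measure.pi (fun _ : I => prodM p F)) (Set.pi univ A) =
        ∏ a, prodM p F (A a) := Measure.pi_pi _ _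
    rw [← h2, Measure.map_apply (measurable_pi_lambda _ fun a => measurable_pi_lambda _ fun f =>
      measurable_pi_apply _) (Set.toFinite _).measurableSet] at h4
    rw [measureReal_def]
    have h5 : {w : I × F → Bool | ∀ a, (fun f => w (a, f)) ∈ A a} =
        (fun (w : I × F → Bool) a f => w (a, f)) ⁻¹' Set.pi univ A := by
      ext w
      simp
    rw [h5, h4, ENNReal.toReal_prod]
    rfl
  rw [← h3, ← h1]
  rfl

theorem prob_closed {E : Type*} [Fintype E] (hp1 : p ≤ 1) (n : ℕ) (e : Fin n → E)
    (he : Function.Injective e) :
    (prodM p E).real {w | ∀ i, w (e i) = false} = (1 - p) ^ n := by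
  have h := real_map_inj p e he {fun _ => false}
  have h2 : (prodM p (Fin n)).real {fun _ => false} = (1 - p) ^ n := by
    rw [measureReal_def, prodM_singleton]
    simp only [bern_false, Finset.prod_const, Finset.card_univ, Fintype.card_fin]
    rw [ENNReal.toReal_pow, ENNReal.toReal_ofReal (by linarith)]
  rw [← h2, ← h]
  congr 1
  ext w
  simp only [mem_ofPred_eq, mem_singleton_iff]
  constructor
  · intro h
    funext i
    exact h i
  · intro h i
    exact congrFun h i

theorem prob_all_open {F : Type*} [Fintype F] (hp0 : 0 ≤ p) :
    (prodM p F).real {w | ∀ f, w f = true} = p ^ (Fintype.card F) := by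
  have h2 : (prodM p F).real {fun _ => true} = p ^ (Fintype.card F) := by
    rw [measureReal_def, prodM_singleton]
    simp only [bern_true, Finset.prod_const, Finset.card_univ]
    rw [ENNReal.toReal_pow, ENNReal.toReal_ofReal hp0]
  rw [← h2]
  congr 1
  ext w
  simp only [mem_ofPred_eq, mem_singleton_iff]
  constructor
  · intro h
    funext i
    exact h i
  · intro h i
    exact congrFun h i

theorem real_compl' {E : Type*} [Fintype E] (A : Set (E → Bool)) :
    (prodM p E).real Aᶜ = 1 - (prodM p E).real A := by
  rw [probReal_compl_eq_one_sub (Set.toFinite A).measurableSet]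

end

end Pool.Agent.Q211.Thin
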