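import Pool.Agent.Q211.Thin.Strip
import Pool.Agent.Q211.Thin.Meas

/-!
A Peierls argument on the cylinder: if a set of vertices is cut off, there is a long
self-avoiding sequence of closed edges, consecutive ones lying on a common plaquette.
-/

namespace Pool.Agent.Q211.Thin

open MeasureTheory

/-- Edges of the cylinder. -/
abbrev Ed (k : ℕ) := ℕ × ZMod k × Bool

variable {k : ℕ}

def nb (e : Ed k) (i : Fin 6) : Ed k :=
  match e, i with
  | (x, j, true), 0 => (x + 1, j, false)
  | (x, j, true), 1 => (x, j + 1, true)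
  | (x, j, true), 2 => (x, j, false)
  | (x, j, true), 3 => (x + 1, j - 1, false)
  | (x, j, true), 4 => (x, j - 1, true)
  | (x, j, true), 5 => (x, j - 1, false)
  | (x, j, false), 0 => (x, j, true)
  | (x, j, false), 1 => (x + 1, j, false)
  | (x, j, false), 2 => (x, j + 1, true)
  | (x, j, false), 3 => (x - 1, j, true)
  | (x, j, false), 4 => (x - 1, j + 1, true)
  | (x, j, false), 5 => (x - 1, j, false)

/-- The four edges of a plaquette. -/
def Plaq (x : ℕ) (j : ZMod k) (e : Ed k) : Prop :=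
  e = (x, j, true) ∨ e = (x + 1, j, false) ∨ e = (x, j + 1, true) ∨ e = (x, j, false)

theorem plaq_nb {x : ℕ} {j : ZMod k} {e e' : Ed k} (h : Plaq x j e) (h' : Plaq x j e')
    (hne : e ≠ e') : ∃ i, nb e i = e' := by
  rcases h with rfl | rfl | rfl | rfl <;> rcases h' with rfl | rfl | rfl | rfl
  · exact absurd rfl hne
  · exact ⟨0, rfl⟩
  · exact ⟨1, rfl⟩
  · exact ⟨2, rfl⟩
  · exact ⟨3, rfl⟩
  · exact absurd rfl hne
  · exact ⟨4, rfl⟩
  · exact ⟨5, rfl⟩
  · exact ⟨4, by simp [nb]⟩
  · exact ⟨3, by simp [nb]⟩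
  · exact absurd rfl hne
  · exact ⟨5, by simp [nb]⟩
  · exact ⟨0, rfl⟩
  · exact ⟨1, rfl⟩
  · exact ⟨2, rfl⟩
  · exact absurd rfl hne

def seqE (e : Ed k) (code : ℕ → Fin 6) : ℕ → Ed k
  | 0 => e
  | n + 1 => nb (seqE e code n) (code n)

def extC {n : ℕ} (code : Fin n → Fin 6) : ℕ → Fin 6 :=
  fun t => if h : t < n then code ⟨t, h⟩ else 0

/-- There is a self-avoiding sequence of `n` closed edges starting at `e`. -/
def CP (c : Cfg k) (L n : ℕ) (e : Ed k) : Prop :=
  ∃ code : Fin n → Fin 6,
    (∀ t < n, (seqE e (extC code) t).1 < L ∧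
      c (seqE e (extC code) t).1 (seqE e (extC code) t).2.1 (seqE e (extC code) t).2.2 = false) ∧
    (∀ s < n, ∀ t < n, seqE e (extC code) s = seqE e (extC code) t → s = t)

/-- coboundary of a set of vertices (as a function to `ZMod 2`) -/
def dl (s : ℕ × ZMod k → ZMod 2) (e : Ed k) : ZMod 2 :=
  match e with
  | (x, j, true) => s (x, j) + s (x + 1, j)
  | (x, j, false) => s (x, j) + s (x, j + 1)

def Gd (s : ℕ × ZMod k → ZMod 2) (L : ℕ) (e : Ed k) : Prop := dl s e ≠ 0 ∧ e.1 < L

def Gr (s : ℕ × ZMod k → ZMod 2) (L : ℕ) : SimpleGraph (Ed k) where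
  Adj e e' := e ≠ e' ∧ Gd s L e ∧ Gd s L e' ∧ ∃ x j, x < L ∧ Plaq x j e ∧ Plaq x j e'
  symm := ⟨fun e e' h => ⟨h.1.symm, h.2.2.1, h.2.1, by
    obtain ⟨x, j, h1, h2, h3⟩ := h.2.2.2
    exact ⟨x, j, h1, h3, h2⟩⟩⟩
  loopless := ⟨fun e h => h.1 rfl⟩

def Pi0 (s : ℕ × ZMod k → ZMod 2) (L : ℕ) (e : Ed k) : Prop :=
  Gd s L e ∧ ∃ x < L, Gd s L (x, 0, true) ∧ (Gr s L).Reachable (x, 0, true) e

open Classical in
noncomputable def pi (s : ℕ × ZMod k → ZMod 2) (L : ℕ) (e : Ed k) : ZMod 2 :=
  if Pi0 s L e then 1 else 0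

theorem zmod2_ne {a : ZMod 2} (h : a ≠ 0) : a = 1 := by
  revert a; decide

theorem tele (f : ℕ → ZMod 2) (L : ℕ) :
    ∑ x ∈ Finset.range L, (f (x + 1) + f x) = f L + f 0 := by
  induction L with
  | zero =>
    simp only [Finset.range_zero, Finset.sum_empty]
    generalize f 0 = a
    revert a; decide
  | succ n ih =>
    rw [Finset.sum_range_succ, ih]
    generalize f 0 = a
    generalize f n = b
    generalize f (n + 1) = d
    revert a b d; decide

theorem gd_of_plaq {s : ℕ × ZMod k → ZMod 2} {L : ℕ} (hsL : ∀ j, s (L, j) = 0) {x : ℕ}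
    {j : ZMod k} (hx : x < L) {e : Ed k} (he : Plaq x j e) (hd : dl s e ≠ 0) : Gd s L e := by
  refine ⟨hd, ?_⟩
  rcases he with rfl | rfl | rfl | rfl
  · exact hx
  · rcases Nat.lt_or_ge (x + 1) L with h | h
    · exact h
    · exfalso
      have : x + 1 = L := by omega
      apply hd
      simp only [dl, this, hsL]
      rfl
  · exact hx
  · exact hx

theorem plaq_sum {s : ℕ × ZMod k → ZMod 2} {L : ℕ} (hsL : ∀ j, s (L, j) = 0) {x : ℕ}
    (j : ZMod k) (hx : x < L) :
    pi s L (x, j, true) + pi s L (x + 1, j, false) + pi s L (x, j + 1, true) +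
      pi s L (x, j, false) = 0 := by
  by_cases h : ∃ e, Plaq x j e ∧ Pi0 s L e
  · obtain ⟨e, he, hp⟩ := h
    have key : ∀ e', Plaq x j e' → pi s L e' = dl s e' := by
      intro e' he'
      by_cases hd : dl s e' = 0
      · rw [hd]
        unfold pi
        rw [if_neg]
        intro h
        exact h.1.1 hd
      · rw [zmod2_ne hd]
        unfold pi
        rw [if_pos]
        have hg := gd_of_plaq hsL hx he' hd
        refine ⟨hg, ?_⟩
        obtain ⟨x0, hx0, hg0, hr⟩ := hp.2
        refine ⟨x0, hx0, hg0, ?_⟩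
        by_cases hee : e = e'
        · rw [← hee]; exact hr
        · apply hr.trans
          apply SimpleGraph.Adj.reachable
          exact ⟨hee, hp.1, hg, x, j, hx, he, he'⟩
    rw [key _ (Or.inl rfl), key _ (Or.inr (Or.inl rfl)), key _ (Or.inr (Or.inr (Or.inl rfl))),
      key _ (Or.inr (Or.inr (Or.inr rfl)))]
    simp only [dl]
    generalize s (x, j) = a
    generalize s (x + 1, j) = b
    generalize s (x, j + 1) = d
    generalize s (x + 1, j + 1) = f
    revert a b d f; decide
  · push Not at h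
    unfold pi
    rw [if_neg (h _ (Or.inl rfl)), if_neg (h _ (Or.inr (Or.inl rfl))),
      if_neg (h _ (Or.inr (Or.inr (Or.inl rfl)))), if_neg (h _ (Or.inr (Or.inr (Or.inr rfl))))]
    simp

theorem core {s : ℕ × ZMod k → ZMod 2} {L : ℕ} (hs0 : s (0, 0) = 1)
    (hsL : ∀ j, s (L, j) = 0) :
    (∃ x < L, Pi0 s L (x, ((k / 2 : ℕ) : ZMod k), true)) ∨ (∃ j, Pi0 s L (0, j, false)) := by
  by_cases hv : ∃ j, Pi0 s L (0, j, false)
  · exact Or.inr hv
  left
  push Not at hv
  have hstep : ∀ j : ZMod k, ∑ x ∈ Finset.range L, pi s L (x, j + 1, true) =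
      ∑ x ∈ Finset.range L, pi s L (x, j, true) := by
    intro j
    have h1 : ∑ x ∈ Finset.range L, (pi s L (x, j, true) + pi s L (x + 1, j, false) +
        pi s L (x, j + 1, true) + pi s L (x, j, false)) = 0 := by
      apply Finset.sum_eq_zero
      intro x hx
      exact plaq_sum hsL j (Finset.mem_range.1 hx)
    have h2 : ∑ x ∈ Finset.range L, (pi s L (x, j, true) + pi s L (x + 1, j, false) +
        pi s L (x, j + 1, true) + pi s L (x, j, false)) =
        ∑ x ∈ Finset.range L, pi s L (x, j, true) + ∑ x ∈ Finset.range L, pi s L (x, j + 1, true) +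
        ∑ x ∈ Finset.range L, (pi s L (x + 1, j, false) + pi s L (x, j, false)) := by
      rw [← Finset.sum_add_distrib, ← Finset.sum_add_distrib]
      apply Finset.sum_congr rfl
      intro x _
      ring
    rw [h2, tele (fun x => pi s L (x, j, false))] at h1
    have h3 : pi s L (L, j, false) = 0 := by
      unfold pi
      rw [if_neg]
      intro h
      exact absurd h.1.2 (by simp)
    have h4 : pi s L (0, j, false) = 0 := by
      unfold pi
      rw [if_neg (hv j)]
    simp only [h3, h4, add_zero] at h1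
    revert h1
    generalize ∑ x ∈ Finset.range L, pi s L (x, j, true) = a
    generalize ∑ x ∈ Finset.range L, pi s L (x, j + 1, true) = b
    revert a b; decide
  have h0 : ∑ x ∈ Finset.range L, pi s L (x, (0 : ZMod k), true) = 1 := by
    have h1 : ∑ x ∈ Finset.range L, pi s L (x, (0 : ZMod k), true) =
        ∑ x ∈ Finset.range L, (s (x + 1, 0) + s (x, 0)) := by
      apply Finset.sum_congr rfl
      intro x hx
      have hx := Finset.mem_range.1 hx
      by_cases hd : dl s (x, (0 : ZMod k), true) = 0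
      · unfold pi
        rw [if_neg (fun h => h.1.1 hd)]
        simp only [dl] at hd
        rw [add_comm, hd]
      · unfold pi
        rw [if_pos ⟨⟨hd, hx⟩, x, hx, ⟨hd, hx⟩, SimpleGraph.Reachable.refl _⟩]
        have := zmod2_ne hd
        simp only [dl] at this
        rw [add_comm, this]
    rw [h1, tele (fun x => s (x, 0)), hs0, hsL]
    rfl
  have hall : ∀ n : ℕ, ∑ x ∈ Finset.range L, pi s L (x, (n : ZMod k), true) = 1 := by
    intro n
    induction n with
    | zero => simpa using h0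
    | succ n ih =>
      have h7 := hstep (n : ZMod k)
      push_cast
      rw [h7, ih]
  have h5 := hall (k / 2)
  have h6 : ∃ x ∈ Finset.range L, pi s L (x, ((k / 2 : ℕ) : ZMod k), true) ≠ 0 := by
    apply Finset.exists_ne_zero_of_sum_ne_zero
    rw [h5]; decide
  obtain ⟨x, hx, hne⟩ := h6
  refine ⟨x, Finset.mem_range.1 hx, ?_⟩
  by_contra hcon
  apply hne
  unfold pi
  rw [if_neg hcon]

/-- lifting a path of the graph `Gr` to a closed self-avoiding sequence -/
theorem cp_of_path {s : ℕ × ZMod k → ZMod 2} {L : ℕ} {c : Cfg k}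
    (hc : ∀ e : Ed k, Gd s L e → c e.1 e.2.1 e.2.2 = false) {e e' : Ed k} (hg : Gd s L e)
    (p : (Gr s L).Walk e e') (hp : p.IsPath) (n : ℕ) (hn : n ≤ p.length + 1) : CP c L n e := by
  classical
  have hadj : ∀ t, t < p.length → (Gr s L).Adj (p.getVert t) (p.getVert (t + 1)) :=
    fun t ht => p.adj_getVert_succ ht
  have hex : ∀ t, ∃ i : Fin 6, t < p.length → nb (p.getVert t) i = p.getVert (t + 1) := by
    intro t
    by_cases ht : t < p.length
    · obtain ⟨h1, _, _, x, j, _, h2, h3⟩ := hadj t ht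
      obtain ⟨i, hi⟩ := plaq_nb h2 h3 h1
      exact ⟨i, fun _ => hi⟩
    · exact ⟨0, fun h => absurd h ht⟩
  choose code hcode using hex
  have hgood : ∀ t, t ≤ p.length → Gd s L (p.getVert t) := by
    intro t ht
    rcases Nat.eq_zero_or_pos t with rfl | h0
    · rw [SimpleGraph.Walk.getVert_zero]; exact hg
    · have := hadj (t - 1) (by omega)
      rw [Nat.sub_add_cancel h0] at this
      exact this.2.2.1
  have hseq : ∀ t, t < n → seqE e (extC (fun i : Fin n => code i)) t = p.getVert t := by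
    intro t
    induction t with
    | zero => intro _; simp [seqE]
    | succ t ih =>
      intro ht
      simp only [seqE]
      rw [ih (by omega)]
      have : extC (fun i : Fin n => code i) t = code t := by
        unfold extC
        rw [dif_pos (by omega)]
      rw [this]
      exact hcode t (by omega)
  refine ⟨fun i : Fin n => code i, ?_, ?_⟩
  · intro t ht
    rw [hseq t ht]
    have := hgood t (by omega)
    exact ⟨this.2, hc _ this⟩
  · intro a ha b hb hab
    rw [hseq a ha, hseq b hb] at hab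
    exact hp.getVert_injOn (by simp; omega) (by simp; omega) hab

theorem walk_lip {V : Type*} {G : SimpleGraph V} (f : V → ℕ)
    (hf : ∀ u v, G.Adj u v → f v ≤ f u + 1) {u v : V} (p : G.Walk u v) :
    f v ≤ f u + p.length := by
  induction p with
  | nil => simp
  | cons h q ih =>
    have := hf _ _ h
    simp only [SimpleGraph.Walk.length_cons]
    omega

/-- circular distance of the row to the row `0` -/
def cyc (j : ZMod k) : ℕ := min j.val (k - j.val)

theorem cyc_succ (hk : 2 ≤ k) (j : ZMod k) : cyc (j + 1) ≤ cyc j + 1 ∧ cyc j ≤ cyc (j + 1) + 1 := by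
  have : NeZero k := ⟨by omega⟩
  have h1 := ZMod.val_lt j
  have h1' : (1 : ZMod k).val = 1 := by
    have : Fact (1 < k) := ⟨by omega⟩
    exact ZMod.val_one k
  rcases Nat.lt_or_ge (j.val + 1) k with h | h
  · have h2 : (j + 1).val = j.val + 1 := by
      rw [ZMod.val_add_of_lt (by rw [h1']; exact h), h1']
    unfold cyc
    rw [h2]
    omega
  · have h2 : (j + 1).val = 0 := by
      rw [ZMod.val_add, h1']
      have : j.val + 1 = k := by omega
      rw [this, Nat.mod_self]
    unfold cyc
    rw [h2]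
    omega

theorem cyc_adj (hk : 2 ≤ k) {s : ℕ × ZMod k → ZMod 2} {L : ℕ} (e e' : Ed k)
    (h : (Gr s L).Adj e e') : cyc e'.2.1 ≤ cyc e.2.1 + 1 := by
  obtain ⟨_, _, _, x, j, _, h2, h3⟩ := h
  have := cyc_succ hk j
  rcases h2 with rfl | rfl | rfl | rfl <;> rcases h3 with rfl | rfl | rfl | rfl <;>
    simp only <;> omega

theorem x_adj {s : ℕ × ZMod k → ZMod 2} {L : ℕ} (e e' : Ed k)
    (h : (Gr s L).Adj e e') : e'.1 ≤ e.1 + 1 := by
  obtain ⟨_, _, _, x, j, _, h2, h3⟩ := h
  rcases h2 with rfl | rfl | rfl | rfl <;> rcases h3 with rfl | rfl | rfl | rfl <;>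
    simp only <;> omega

theorem peierls_det (hk : 2 ≤ k) {s : ℕ × ZMod k → ZMod 2} {L : ℕ} {c : Cfg k}
    (hc : ∀ e : Ed k, Gd s L e → c e.1 e.2.1 e.2.2 = false) (hs0 : s (0, 0) = 1)
    (hsL : ∀ j, s (L, j) = 0) :
    (∃ x < L, CP c L (k / 2 + 1) (x, 0, true)) ∨
      ((∃ j, dl s (0, j, false) ≠ 0) ∧ ∃ x < L, CP c L (x + 1) (x, 0, true)) := by
  rcases core hs0 hsL with ⟨y, hy, h⟩ | ⟨j, h⟩
  · left
    obtain ⟨_, x, hx, hg, ⟨w⟩⟩ := h
    refine ⟨x, hx, ?_⟩
    classical
    apply cp_of_path hc hg w.toPath.1 w.toPath.2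
    have h1 := walk_lip (fun e : Ed k => cyc e.2.1) (cyc_adj hk) w.toPath.1
    simp only at h1
    have h2 : cyc ((k / 2 : ℕ) : ZMod k) = k / 2 := by
      unfold cyc
      rw [ZMod.val_natCast, Nat.mod_eq_of_lt (by omega)]
      omega
    rw [h2] at h1
    have h3 : cyc (0 : ZMod k) = 0 := by
      unfold cyc
      simp
    rw [h3] at h1
    omega
  · right
    refine ⟨⟨j, h.1.1⟩, ?_⟩
    obtain ⟨_, x, hx, hg, ⟨w⟩⟩ := h
    refine ⟨x, hx, ?_⟩
    classical
    apply cp_of_path hc hg w.toPath.1 w.toPath.2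
    have h1 := walk_lip (fun e : Ed k => e.1) x_adj w.toPath.1.reverse
    simp only [SimpleGraph.Walk.length_reverse] at h1
    omega

open Classical in
theorem noCr_cp (hk : 2 ≤ k) (c : Cfg k) (L : ℕ) (h : ¬ Cr c 0 L) :
    ∃ x < L, CP c L (k / 2 + 1) (x, 0, true) := by
  let s : ℕ × ZMod k → ZMod 2 := fun u => if ∃ i, (Op c 0 L).Reachable (0, i) u then 1 else 0
  have hadj : ∀ u v, (Op c 0 L).Adj u v → s u = s v := by
    intro u v huv
    have : (∃ i, (Op c 0 L).Reachable (0, i) u) ↔ (∃ i, (Op c 0 L).Reachable (0, i) v) :=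
      ⟨fun ⟨i, hi⟩ => ⟨i, hi.trans huv.reachable⟩, fun ⟨i, hi⟩ => ⟨i, hi.trans huv.symm.reachable⟩⟩
    simp only [s, this]
  have h0 : ∀ j, s (0, j) = 1 := fun j => if_pos ⟨j, SimpleGraph.Reachable.refl _⟩
  have hL : ∀ j, s (L, j) = 0 := fun j => if_neg (fun ⟨i, hi⟩ => h ⟨i, j, hi⟩)
  have hc : ∀ e : Ed k, Gd s L e → c e.1 e.2.1 e.2.2 = false := by
    rintro ⟨x, j, b⟩ ⟨hd, hx⟩
    by_contra hcon
    rw [Bool.not_eq_false] at hcon
    apply hd
    cases b
    · simp only [dl]
      simp only at hcon hx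
      by_cases heq : ((x, j) : ℕ × ZMod k) = (x, j + 1)
      · rw [← heq]
        generalize s (x, j) = a
        revert a; decide
      · rw [hadj (x, j) (x, j + 1) (by
          rw [op_adj]; exact ⟨heq, Or.inl (Or.inr ⟨rfl, rfl, by simp, hx, hcon⟩)⟩)]
        generalize s (x, j + 1) = a
        revert a; decide
    · simp only [dl]
      simp only at hcon hx
      rw [hadj (x, j) (x + 1, j) (by
          rw [op_adj]
          exact ⟨by simp, Or.inl (Or.inl ⟨rfl, rfl, by simp, hx, hcon⟩)⟩)]
      generalize s (x + 1, j) = a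
      revert a; decide
  rcases peierls_det hk hc (h0 0) hL with h1 | ⟨⟨j, hj⟩, _⟩
  · exact h1
  · exfalso
    apply hj
    simp only [dl, h0]
    decide

open Classical in
theorem noReach_cp (hk : 2 ≤ k) (c : Cfg k) (L : ℕ)
    (h : ¬ ∃ j, (Op c 0 L).Reachable (0, 0) (L, j)) :
    (∃ x < L, CP c L (k / 2 + 1) (x, 0, true)) ∨ (∃ x < L, CP c L (x + 1) (x, 0, true)) := by
  let s : ℕ × ZMod k → ZMod 2 := fun u => if (Op c 0 L).Reachable (0, 0) u then 1 else 0
  have hadj : ∀ u v, (Op c 0 L).Adj u v → s u = s v := by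
    intro u v huv
    have : ((Op c 0 L).Reachable (0, 0) u) ↔ ((Op c 0 L).Reachable (0, 0) v) :=
      ⟨fun hi => hi.trans huv.reachable, fun hi => hi.trans huv.symm.reachable⟩
    simp only [s, this]
  have h0 : s (0, 0) = 1 := if_pos (SimpleGraph.Reachable.refl _)
  have hL : ∀ j, s (L, j) = 0 := fun j => if_neg (fun hi => h ⟨j, hi⟩)
  have hc : ∀ e : Ed k, Gd s L e → c e.1 e.2.1 e.2.2 = false := by
    rintro ⟨x, j, b⟩ ⟨hd, hx⟩
    by_contra hcon
    rw [Bool.not_eq_false] at hcon
    apply hd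
    cases b
    · simp only [dl]
      simp only at hcon hx
      by_cases heq : ((x, j) : ℕ × ZMod k) = (x, j + 1)
      · rw [← heq]
        generalize s (x, j) = a
        revert a; decide
      · rw [hadj (x, j) (x, j + 1) (by
          rw [op_adj]; exact ⟨heq, Or.inl (Or.inr ⟨rfl, rfl, by simp, hx, hcon⟩)⟩)]
        generalize s (x, j + 1) = a
        revert a; decide
    · simp only [dl]
      simp only at hcon hx
      rw [hadj (x, j) (x + 1, j) (by
          rw [op_adj]
          exact ⟨by simp, Or.inl (Or.inl ⟨rfl, rfl, by simp, hx, hcon⟩)⟩)]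
      generalize s (x + 1, j) = a
      revert a; decide
  rcases peierls_det hk hc h0 hL with h1 | ⟨_, h1⟩
  · exact Or.inl h1
  · exact Or.inr h1

/-! ### Probabilities -/

/-- The configuration given by finitely many coordinates. -/
def cfg {L : ℕ} (w : Fin L × ZMod k × Bool → Bool) : Cfg k :=
  fun x j b => if h : x < L then w (⟨x, h⟩, j, b) else false

theorem prob_cp [NeZero k] (p : ℝ) [IsProbabilityMeasure (bern p)] (hp1 : p ≤ 1) (L n : ℕ)
    (e : Ed k) :
    (prodM p (Fin L × ZMod k × Bool)).real {w | CP (cfg w) L n e} ≤ (6 * (1 - p)) ^ n := by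
  classical
  have hsub : {w : Fin L × ZMod k × Bool → Bool | CP (cfg w) L n e} ⊆
      ⋃ code : Fin n → Fin 6, {w | (∀ t < n, (seqE e (extC code) t).1 < L ∧
      cfg w (seqE e (extC code) t).1 (seqE e (extC code) t).2.1 (seqE e (extC code) t).2.2
        = false) ∧
      (∀ s < n, ∀ t < n, seqE e (extC code) s = seqE e (extC code) t → s = t)} := by
    intro w hw
    obtain ⟨code, h⟩ := hw
    exact Set.mem_iUnion.2 ⟨code, h⟩
  refine (measureReal_mono hsub (measure_ne_top _ _)).trans ?_
  refine (measureReal_iUnion_fintype_le _).trans ?_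
  have hterm : ∀ code : Fin n → Fin 6,
      (prodM p (Fin L × ZMod k × Bool)).real {w | (∀ t < n, (seqE e (extC code) t).1 < L ∧
      cfg w (seqE e (extC code) t).1 (seqE e (extC code) t).2.1 (seqE e (extC code) t).2.2
        = false) ∧
      (∀ s < n, ∀ t < n, seqE e (extC code) s = seqE e (extC code) t → s = t)} ≤
        (1 - p) ^ n := by
    intro code
    by_cases hcond : (∀ t < n, (seqE e (extC code) t).1 < L) ∧
      (∀ s < n, ∀ t < n, seqE e (extC code) s = seqE e (extC code) t → s = t)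
    · have hinj : Function.Injective (fun t : Fin n =>
          ((⟨(seqE e (extC code) t).1, hcond.1 t t.2⟩, (seqE e (extC code) t).2.1,
            (seqE e (extC code) t).2.2) : Fin L × ZMod k × Bool)) := by
        intro a b hab
        simp only [Prod.mk.injEq, Fin.mk.injEq] at hab
        apply Fin.ext
        apply hcond.2 a a.2 b b.2
        exact Prod.ext hab.1 (Prod.ext hab.2.1 hab.2.2)
      rw [← prob_closed p hp1 n _ hinj]
      apply measureReal_mono _ (measure_ne_top _ _)
      intro w hw i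
      have := (hw.1 i i.2).2
      unfold cfg at this
      rw [dif_pos (hcond.1 i i.2)] at this
      exact this
    · have : {w : Fin L × ZMod k × Bool → Bool | (∀ t < n, (seqE e (extC code) t).1 < L ∧
          cfg w (seqE e (extC code) t).1 (seqE e (extC code) t).2.1 (seqE e (extC code) t).2.2
            = false) ∧
          (∀ s < n, ∀ t < n, seqE e (extC code) s = seqE e (extC code) t → s = t)} = ∅ := by
        ext w
        simp only [Set.mem_empty_iff_false, iff_false]
        intro hw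
        exact hcond ⟨fun t ht => (hw.1 t ht).1, hw.2⟩
      rw [this]
      simp only [measureReal_empty]
      exact pow_nonneg (by linarith) _
  calc _ ≤ ∑ _code : Fin n → Fin 6, (1 - p) ^ n := Finset.sum_le_sum fun code _ => hterm code
    _ = (6 * (1 - p)) ^ n := by
      rw [Finset.sum_const, Finset.card_univ, Fintype.card_fun, Fintype.card_fin,
        Fintype.card_fin, nsmul_eq_mul, mul_pow]
      push_cast
      ring

end Pool.Agent.Q211.Thin
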