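import Mathlib

/-!
Configurations on the half-infinite cylinder `ℕ × ZMod k`.
`c x j true` is the state of the edge `(x,j) - (x+1,j)`, `c x j false` the state of the edge
`(x,j) - (x,j+1)`.
-/

namespace Pool.Agent.Q211.Thin

abbrev Cfg (k : ℕ) := ℕ → ZMod k → Bool → Bool

/-- Open edges of the piece of the cylinder between the layers `a` and `b` (vertical edges of the
layer `b` are left out). -/
def StepRel {k : ℕ} (c : Cfg k) (a b : ℕ) (u v : ℕ × ZMod k) : Prop :=
  (u.2 = v.2 ∧ v.1 = u.1 + 1 ∧ a ≤ u.1 ∧ v.1 ≤ b ∧ c u.1 u.2 true = true) ∨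
  (u.1 = v.1 ∧ v.2 = u.2 + 1 ∧ a ≤ u.1 ∧ u.1 < b ∧ c u.1 u.2 false = true)

def Op {k : ℕ} (c : Cfg k) (a b : ℕ) : SimpleGraph (ℕ × ZMod k) :=
  SimpleGraph.fromRel (StepRel c a b)

/-- There is an open crossing from the layer `a` to the layer `b`. -/
def Cr {k : ℕ} (c : Cfg k) (a b : ℕ) : Prop :=
  ∃ i j, (Op c a b).Reachable (a, i) (b, j)

variable {k : ℕ}

theorem op_adj {c : Cfg k} {a b : ℕ} {u v : ℕ × ZMod k} :
    (Op c a b).Adj u v ↔ u ≠ v ∧ (StepRel c a b u v ∨ StepRel c a b v u) := by
  unfold Op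
  rw [SimpleGraph.fromRel_adj]

theorem stepRel_mono {c : Cfg k} {a b a' b' : ℕ} (ha : a' ≤ a) (hb : b ≤ b')
    {u v : ℕ × ZMod k} (h : StepRel c a b u v) : StepRel c a' b' u v := by
  rcases h with ⟨h1, h2, h3, h4, h5⟩ | ⟨h1, h2, h3, h4, h5⟩
  · exact Or.inl ⟨h1, h2, by omega, by omega, h5⟩
  · exact Or.inr ⟨h1, h2, by omega, by omega, h5⟩

theorem op_mono {c : Cfg k} {a b a' b' : ℕ} (ha : a' ≤ a) (hb : b ≤ b') :
    Op c a b ≤ Op c a' b' := by
  intro u v h
  rw [op_adj] at h ⊢
  exact ⟨h.1, h.2.imp (stepRel_mono ha hb) (stepRel_mono ha hb)⟩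

theorem op_reach_mono {c : Cfg k} {a b a' b' : ℕ} (ha : a' ≤ a) (hb : b ≤ b')
    {u v : ℕ × ZMod k} (h : (Op c a b).Reachable u v) : (Op c a' b').Reachable u v :=
  h.mono (op_mono ha hb)

theorem op_adj_layer {c : Cfg k} {a b : ℕ} {u v : ℕ × ZMod k} (h : (Op c a b).Adj u v) :
    v.1 ≤ u.1 + 1 ∧ u.1 ≤ v.1 + 1 := by
  rw [op_adj] at h
  rcases h.2 with h | h <;> rcases h with ⟨h1, h2, h3, h4, h5⟩ | ⟨h1, h2, h3, h4, h5⟩ <;> omega

/-- a walk passes through every intermediate layer -/
theorem exists_layer {c : Cfg k} {a b : ℕ} {u v : ℕ × ZMod k} (h : (Op c a b).Reachable u v)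
    (s : ℕ) (h1 : u.1 ≤ s) (h2 : s ≤ v.1) :
    ∃ j, (Op c a b).Reachable u (s, j) := by
  obtain ⟨w⟩ := h
  induction w with
  | nil =>
    rename_i u
    refine ⟨u.2, ?_⟩
    have : s = u.1 := by omega
    subst this
    exact SimpleGraph.Reachable.refl _
  | cons hadj _p ih =>
    rename_i u w v
    rcases Nat.lt_or_ge u.1 s with h3 | h3
    · have h4 := op_adj_layer hadj
      obtain ⟨j, hj⟩ := ih (by omega) h2
      exact ⟨j, hadj.reachable.trans hj⟩
    · refine ⟨u.2, ?_⟩
      have : s = u.1 := by omega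
      subst this
      exact SimpleGraph.Reachable.refl _

/-- first passage through the layer `m` -/
theorem first_layer {c : Cfg k} {a b : ℕ} {u v : ℕ × ZMod k} (h : (Op c a b).Reachable u v)
    (m : ℕ) (h1 : u.1 ≤ m) (h2 : m ≤ v.1) :
    ∃ j, (Op c a m).Reachable u (m, j) := by
  obtain ⟨w⟩ := h
  induction w with
  | nil =>
    rename_i u
    refine ⟨u.2, ?_⟩
    have : m = u.1 := by omega
    subst this
    exact SimpleGraph.Reachable.refl _
  | cons hadj _p ih =>
    rename_i u w v
    rcases Nat.lt_or_ge u.1 m with h3 | h3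
    · have h4 := op_adj_layer hadj
      obtain ⟨j, hj⟩ := ih (by omega) h2
      have h5 : (Op c a m).Adj u w := by
        rw [op_adj] at hadj ⊢
        refine ⟨hadj.1, ?_⟩
        rcases hadj.2 with h | h
        · left
          rcases h with ⟨q1, q2, q3, q4, q5⟩ | ⟨q1, q2, q3, q4, q5⟩
          · exact Or.inl ⟨q1, q2, q3, by omega, q5⟩
          · exact Or.inr ⟨q1, q2, q3, by omega, q5⟩
        · right
          rcases h with ⟨q1, q2, q3, q4, q5⟩ | ⟨q1, q2, q3, q4, q5⟩
          · exact Or.inl ⟨q1, q2, q3, by omega, q5⟩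
          · exact Or.inr ⟨q1, q2, q3, by omega, q5⟩
      exact ⟨j, h5.reachable.trans hj⟩
    · refine ⟨u.2, ?_⟩
      have : m = u.1 := by omega
      subst this
      exact SimpleGraph.Reachable.refl _

theorem cr_mono {c : Cfg k} {a m b : ℕ} (h1 : a ≤ m) (h2 : m ≤ b) (h : Cr c a b) : Cr c a m := by
  obtain ⟨i, j, h⟩ := h
  obtain ⟨j', hj'⟩ := first_layer h m h1 h2
  exact ⟨i, j', hj'⟩

/-- vertical connections inside a full layer -/
theorem full_layer [NeZero k] {c : Cfg k} {a b s : ℕ} (h1 : a ≤ s) (h2 : s < b)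
    (hs : ∀ j, c s j false = true) (i j : ZMod k) :
    (Op c a b).Reachable (s, i) (s, j) := by
  have key : ∀ n : ℕ, (Op c a b).Reachable (s, i) (s, i + n) := by
    intro n
    induction n with
    | zero => simp
    | succ n ih =>
      refine ih.trans ?_
      by_cases heq : ((s, i + (n : ZMod k)) : ℕ × ZMod k) = (s, i + ((n + 1 : ℕ) : ZMod k))
      · rw [← heq]
      · apply SimpleGraph.Adj.reachable
        rw [op_adj]
        refine ⟨heq, Or.inl (Or.inr ⟨rfl, ?_, h1, h2, hs _⟩)⟩
        show i + ((n + 1 : ℕ) : ZMod k) = i + (n : ZMod k) + 1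
        push_cast
        ring
  have := key ((j - i).val)
  rw [ZMod.natCast_zmod_val] at this
  simpa using this

/-- gluing two crossings through a full layer -/
theorem cr_glue [NeZero k] {c : Cfg k} {a b b' d s : ℕ} (h1 : a ≤ b') (h2 : b' ≤ s) (h3 : s < b)
    (h4 : b ≤ d) (hs : ∀ j, c s j false = true) (hc1 : Cr c a b) (hc2 : Cr c b' d) : Cr c a d := by
  obtain ⟨i1, j1, p1⟩ := hc1
  obtain ⟨i2, j2, p2⟩ := hc2
  obtain ⟨m1, q1⟩ := exists_layer p1 s (by simp; omega) (by simp; omega)
  obtain ⟨m2, q2⟩ := exists_layer p2 s (by simp; omega) (by simp; omega)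
  refine ⟨i1, j2, ?_⟩
  have r1 := op_reach_mono (a' := a) (b' := d) le_rfl h4 q1
  have r2 := op_reach_mono (a' := a) (b' := d) h1 le_rfl (q2.symm.trans p2)
  have r3 := full_layer (c := c) (a := a) (b := d) (s := s) (by omega) (by omega) hs m1 m2
  exact r1.trans (r3.trans r2)

/-- a point connected to the layer `W` is connected to the layer `R` if there is a full layer
before `W` and a crossing from `0` to `R`. -/
theorem point_glue [NeZero k] {c : Cfg k} {W R s : ℕ} {i : ZMod k} (h3 : s < W)
    (h4 : W ≤ R) (hs : ∀ j, c s j false = true) (hc1 : Cr c 0 R)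
    (hp : ∃ j, (Op c 0 W).Reachable (0, i) (W, j)) :
    ∃ j, (Op c 0 R).Reachable (0, i) (R, j) := by
  obtain ⟨i1, j1, p1⟩ := hc1
  obtain ⟨j2, p2⟩ := hp
  obtain ⟨m1, q1⟩ := exists_layer p1 s (by simp) (by simp; omega)
  obtain ⟨m2, q2⟩ := exists_layer p2 s (by simp) (by simp; omega)
  refine ⟨j1, ?_⟩
  have r1 := op_reach_mono (a' := 0) (b' := R) le_rfl h4 q2
  have r3 := full_layer (c := c) (a := 0) (b := R) (s := s) (by omega) (by omega) hs m2 m1
  exact r1.trans (r3.trans (q1.symm.trans p1))

/-- Translates of a configuration. -/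
def shift (c : Cfg k) (s : ℕ) (t : ZMod k) : Cfg k := fun x j b => c (s + x) (t + j) b

theorem reach_shift (c : Cfg k) (s : ℕ) (t : ZMod k) (a b : ℕ) (u v : ℕ × ZMod k)
    (h : (Op (shift c s t) a b).Reachable u v) :
    (Op c (s + a) (s + b)).Reachable (s + u.1, t + u.2) (s + v.1, t + v.2) := by
  let f : Op (shift c s t) a b →g Op c (s + a) (s + b) :=
    { toFun := fun u => (s + u.1, t + u.2)
      map_rel' := by
        intro u v huv
        rw [op_adj] at huv ⊢
        refine ⟨?_, ?_⟩
        · intro heq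
          apply huv.1
          rw [Prod.mk.injEq] at heq
          exact Prod.ext (by omega) (by simpa using heq.2)
        · have key : ∀ u v : ℕ × ZMod k, StepRel (shift c s t) a b u v →
              StepRel c (s + a) (s + b) (s + u.1, t + u.2) (s + v.1, t + v.2) := by
            intro u v h
            rcases h with ⟨q1, q2, q3, q4, q5⟩ | ⟨q1, q2, q3, q4, q5⟩
            · refine Or.inl ⟨?_, ?_, ?_, ?_, ?_⟩
              · simp [q1]
              · simp only; omega
              · simp only; omega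
              · simp only; omega
              · simpa [shift] using q5
            · refine Or.inr ⟨?_, ?_, ?_, ?_, ?_⟩
              · simp [q1]
              · simp only [q2]; ring
              · simp only; omega
              · simp only; omega
              · simpa [shift] using q5
          exact huv.2.imp (key _ _) (key _ _) }
  exact h.map f

theorem reach_unshift (c : Cfg k) (s : ℕ) (t : ZMod k) (a b : ℕ) (u v : ℕ × ZMod k)
    (h : (Op c (s + a) (s + b)).Reachable u v) :
    (Op (shift c s t) a b).Reachable (u.1 - s, u.2 - t) (v.1 - s, v.2 - t) := by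
  let f : Op c (s + a) (s + b) →g Op (shift c s t) a b :=
    { toFun := fun u => (u.1 - s, u.2 - t)
      map_rel' := by
        intro u v huv
        rw [op_adj] at huv ⊢
        have hs : s ≤ u.1 ∧ s ≤ v.1 := by
          rcases huv.2 with h | h <;>
            rcases h with ⟨h1, h2, h3, h4, h5⟩ | ⟨h1, h2, h3, h4, h5⟩ <;> omega
        refine ⟨?_, ?_⟩
        · intro heq
          apply huv.1
          rw [Prod.mk.injEq] at heq
          exact Prod.ext (by omega) (by simpa using heq.2)
        · have key : ∀ u v : ℕ × ZMod k, s ≤ u.1 → s ≤ v.1 → StepRel c (s + a) (s + b) u v →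
              StepRel (shift c s t) a b (u.1 - s, u.2 - t) (v.1 - s, v.2 - t) := by
            intro u v hu hv h
            rcases h with ⟨q1, q2, q3, q4, q5⟩ | ⟨q1, q2, q3, q4, q5⟩
            · refine Or.inl ⟨?_, ?_, ?_, ?_, ?_⟩
              · simp [q1]
              · simp only; omega
              · simp only; omega
              · simp only; omega
              · simp only [shift]
                rw [show s + (u.1 - s) = u.1 by omega, show t + (u.2 - t) = u.2 by ring]
                exact q5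
            · refine Or.inr ⟨?_, ?_, ?_, ?_, ?_⟩
              · simp [q1]
              · simp only [q2]; ring
              · simp only; omega
              · simp only; omega
              · simp only [shift]
                rw [show s + (u.1 - s) = u.1 by omega, show t + (u.2 - t) = u.2 by ring]
                exact q5
          rcases huv.2 with h | h
          · exact Or.inl (key _ _ hs.1 hs.2 h)
          · exact Or.inr (key _ _ hs.2 hs.1 h) }
  exact h.map f

theorem cr_shift (c : Cfg k) (s : ℕ) (t : ZMod k) (a b : ℕ) :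
    Cr (shift c s t) a b ↔ Cr c (s + a) (s + b) := by
  constructor
  · rintro ⟨i, j, h⟩
    exact ⟨_, _, reach_shift c s t a b _ _ h⟩
  · rintro ⟨i, j, h⟩
    have := reach_unshift c s t a b _ _ h
    simp only [Nat.add_sub_cancel_left] at this
    exact ⟨_, _, this⟩

/-- only the coordinates `x < b` matter -/
theorem stepRel_congr {c c' : Cfg k} {a b : ℕ}
    (h : ∀ x, a ≤ x → x < b → c x = c' x) {u v : ℕ × ZMod k}
    (huv : StepRel c a b u v) : StepRel c' a b u v := by
  rcases huv with ⟨h1, h2, h3, h4, h5⟩ | ⟨h1, h2, h3, h4, h5⟩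
  · exact Or.inl ⟨h1, h2, h3, h4, by rw [← h u.1 h3 (by omega)]; exact h5⟩
  · exact Or.inr ⟨h1, h2, h3, h4, by rw [← h u.1 h3 h4]; exact h5⟩

theorem op_congr {c c' : Cfg k} {a b : ℕ} (h : ∀ x, a ≤ x → x < b → c x = c' x) :
    Op c a b = Op c' a b := by
  ext u v
  rw [op_adj, op_adj]
  constructor
  · rintro ⟨h1, h2⟩
    exact ⟨h1, h2.imp (stepRel_congr h) (stepRel_congr h)⟩
  · rintro ⟨h1, h2⟩
    exact ⟨h1, h2.imp (stepRel_congr fun x h1 h2 => (h x h1 h2).symm)
      (stepRel_congr fun x h1 h2 => (h x h1 h2).symm)⟩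

theorem cr_congr {c c' : Cfg k} {a b : ℕ} (h : ∀ x, a ≤ x → x < b → c x = c' x) :
    Cr c a b ↔ Cr c' a b := by
  unfold Cr
  rw [op_congr h]

/-- a closed column blocks -/
theorem cr_column {c : Cfg k} {a b x : ℕ} (h1 : a ≤ x) (h2 : x < b) (h : Cr c a b) :
    ∃ j, c x j true = true := by
  by_contra hno
  push Not at hno
  obtain ⟨i, j, w⟩ := h
  obtain ⟨w⟩ := w
  have key : ∀ (u v : ℕ × ZMod k), (Op c a b).Walk u v → u.1 ≤ x → v.1 ≤ x := by
    intro u v w
    induction w with
    | nil => exact fun h => h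
    | cons hadj _p ih =>
      rename_i u w v
      intro hu
      apply ih
      rw [op_adj] at hadj
      rcases hadj.2 with h | h
      · rcases h with ⟨q1, q2, q3, q4, q5⟩ | ⟨q1, q2, q3, q4, q5⟩
        · rcases Nat.lt_or_ge u.1 x with h5 | h5
          · omega
          · exfalso
            have : u.1 = x := by omega
            rw [this] at q5
            exact hno _ q5
        · omega
      · rcases h with ⟨q1, q2, q3, q4, q5⟩ | ⟨q1, q2, q3, q4, q5⟩ <;> omega
  have := key _ _ w h1
  simp at this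
  omega

end Pool.Agent.Q211.Thin
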