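import Pool.Agent.Q211.Thin.Torus

/-!
Probability estimates on the torus.
-/

namespace Pool.Agent.Q211.Thin

open MeasureTheory

variable {M k : ℕ} [NeZero M] [NeZero k]

/-- configuration of the torus from coordinates -/
def tc (w : ZMod M × ZMod k × Bool → Bool) : TCfg M k := fun x y b => w (x, y, b)

theorem natCast_inj_of_lt {a b : ℕ} (ha : a < M) (hb : b < M) (h : (a : ZMod M) = (b : ZMod M)) :
    a = b := by
  have h1 := congrArg ZMod.val h
  rwa [ZMod.val_natCast, ZMod.val_natCast, Nat.mod_eq_of_lt ha, Nat.mod_eq_of_lt hb] at h1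

theorem walls_prob {L : ℕ} (hL : 1 ≤ L) :
    (prodM p0 (ZMod M × ZMod k × Bool)).real
      {w | ∀ i < M / L, ¬ Cr (win (tc w) ((i * L : ℕ) : ZMod M) 0) 0 L} =
      (gam k L) ^ (M / L) := by
  have hb : ∀ i : Fin (M / L), ∀ x : Fin L, (i : ℕ) * L + x < M := by
    intro i x
    have h1 : (i : ℕ) + 1 ≤ M / L := i.2
    have h2 : ((i : ℕ) + 1) * L ≤ M / L * L := Nat.mul_le_mul_right _ h1
    have h3 := Nat.div_mul_le_self M L
    have h4 : ((i : ℕ) + 1) * L = i * L + L := by ring
    have := x.2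
    omega
  have hi : Function.Injective (fun x : Fin (M / L) × (Fin L × ZMod k × Bool) =>
      ((((x.1 : ℕ) * L + (x.2.1 : ℕ) : ℕ) : ZMod M), x.2.2.1, x.2.2.2)) := by
    rintro ⟨a, b, c, d⟩ ⟨a', b', c', d'⟩ h
    simp only [Prod.mk.injEq] at h
    obtain ⟨h1, h2, h3⟩ := h
    have h4 := natCast_inj_of_lt (hb a b) (hb a' b') h1
    have h5 : (a : ℕ) = a' := by
      have e1 : ((a : ℕ) * L + b) / L = a := by
        rw [Nat.mul_comm, Nat.mul_add_div hL, Nat.div_eq_of_lt b.2]; rfl
      have e2 : ((a' : ℕ) * L + b') / L = a' := by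
        rw [Nat.mul_comm, Nat.mul_add_div hL, Nat.div_eq_of_lt b'.2]; rfl
      rw [← e1, ← e2, h4]
    have h6 : (b : ℕ) = b' := by
      rw [h5] at h4
      omega
    rw [Fin.ext h5, Fin.ext h6, h2, h3]
  have h := block p0 (E := ZMod M × ZMod k × Bool)
    (fun (i : Fin (M / L)) (f : Fin L × ZMod k × Bool) =>
      ((((i : ℕ) * L + (f.1 : ℕ) : ℕ) : ZMod M), f.2.1, f.2.2)) hi
    (fun _ => {w | ¬ Cr (cfg w) 0 L})
  rw [Finset.prod_const, Finset.card_univ, Fintype.card_fin] at h
  unfold gam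
  rw [← h]
  congr 1
  ext w
  have key : ∀ i : Fin (M / L), (Cr (cfg fun f : Fin L × ZMod k × Bool =>
      w ((((i : ℕ) * L + (f.1 : ℕ) : ℕ) : ZMod M), f.2.1, f.2.2)) 0 L ↔
      Cr (win (tc w) (((i : ℕ) * L : ℕ) : ZMod M) 0) 0 L) := by
    intro i
    apply cr_congr
    intro x _ hx
    funext j b
    unfold cfg win tc
    rw [dif_pos hx]
    push_cast
    simp
  constructor
  · intro hw i hcr
    exact hw i i.2 ((key i).1 hcr)
  · intro hw i hilt hcr
    exact hw ⟨i, hilt⟩ ((key ⟨i, hilt⟩).2 hcr)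

theorem torus_reach_prob (hk : 2 ≤ k) {W R : ℕ} (hWR : W ≤ R) (hRM : R ≤ M)
    (v : ZMod M × ZMod k) :
    (prodM p0 (ZMod M × ZMod k × Bool)).real
      {w | ¬ ∃ j, (Op (win (tc w) v.1 v.2) 0 R).Reachable (0, 0) (R, j)} ≤
      gam k R + (W * (1 / 100 : ℝ) ^ (k / 2 + 1) + 1 / 99) + (1 - p0 ^ k) ^ W := by
  have hi : Function.Injective (fun f : Fin R × ZMod k × Bool =>
      (v.1 + ((f.1 : ℕ) : ZMod M), v.2 + f.2.1, f.2.2)) := by
    rintro ⟨a, b, c⟩ ⟨a', b', c'⟩ h
    simp only [Prod.mk.injEq, add_right_inj] at h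
    have h4 := natCast_inj_of_lt (by have := a.2; omega) (by have := a'.2; omega) h.1
    rw [Fin.ext h4, h.2.1, h.2.2]
  have h := real_map_inj p0 _ hi {w | ¬ ∃ j, (Op (cfg w) 0 R).Reachable (0, 0) (R, j)}
  have h2 := reach_prob (k := k) hk hWR
  rw [← h] at h2
  refine le_trans (le_of_eq ?_) h2
  congr 1
  ext w
  apply not_congr
  have : Op (win (tc w) v.1 v.2) 0 R = Op (cfg fun f : Fin R × ZMod k × Bool =>
      w (v.1 + ((f.1 : ℕ) : ZMod M), v.2 + f.2.1, f.2.2)) 0 R := by
    apply op_congr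
    intro x _ hx
    funext j b
    unfold cfg win tc
    rw [dif_pos hx]
  rw [this]

omit [NeZero M] [NeZero k] in
theorem to_of_op (hM : 2 ≤ M) (hk : 2 ≤ k) (τ : TCfg M k) (b : ZMod M) (t : ZMod k) (R : ℕ)
    (u v : ℕ × ZMod k)
    (h : (Op (win τ b t) 0 R).Reachable u v) :
    (TO τ).Reachable (b + (u.1 : ZMod M), t + u.2) (b + (v.1 : ZMod M), t + v.2) := by
  have hM1 : (1 : ZMod M) ≠ 0 := by
    have : Fact (1 < M) := ⟨by omega⟩
    exact one_ne_zero
  have hk1 : (1 : ZMod k) ≠ 0 := by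
    have : Fact (1 < k) := ⟨by omega⟩
    exact one_ne_zero
  have key : ∀ u v : ℕ × ZMod k, StepRel (win τ b t) 0 R u v →
      TStep τ (b + (u.1 : ZMod M), t + u.2) (b + (v.1 : ZMod M), t + v.2) ∧
      ((b + (u.1 : ZMod M), t + u.2) : ZMod M × ZMod k) ≠ (b + (v.1 : ZMod M), t + v.2) := by
    intro u v h
    rcases h with ⟨q1, q2, q3, q4, q5⟩ | ⟨q1, q2, q3, q4, q5⟩
    · refine ⟨Or.inl ⟨by simp [q1], ?_, q5⟩, ?_⟩
      · simp only [q2]; push_cast; ring
      · intro heq
        rw [Prod.mk.injEq] at heq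
        have := heq.1
        rw [q2] at this
        push_cast at this
        rw [← add_assoc] at this
        exact hM1 (by simpa using this)
    · refine ⟨Or.inr ⟨by simp [q1], ?_, q5⟩, ?_⟩
      · simp only [q2]; ring
      · intro heq
        rw [Prod.mk.injEq] at heq
        have := heq.2
        rw [q2, ← add_assoc] at this
        exact hk1 (by simpa using this)
  let f : Op (win τ b t) 0 R →g TO τ :=
    { toFun := fun u => (b + (u.1 : ZMod M), t + u.2)
      map_rel' := by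
        intro u v huv
        rw [op_adj] at huv
        rw [to_adj]
        rcases huv.2 with h | h
        · exact ⟨(key _ _ h).2, Or.inl (key _ _ h).1⟩
        · exact ⟨(key _ _ h).2.symm, Or.inr (key _ _ h).1⟩ }
  exact h.map f

/-! ### The torus graph -/

omit [NeZero M] [NeZero k]

def TRel (u v : ZMod M × ZMod k) : Prop :=
  (u.2 = v.2 ∧ v.1 = u.1 + 1) ∨ (u.1 = v.1 ∧ v.2 = u.2 + 1)

/-- The discrete torus. -/
def TG (M k : ℕ) : SimpleGraph (ZMod M × ZMod k) := SimpleGraph.fromRel TRel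

theorem tg_adj {u v : ZMod M × ZMod k} : (TG M k).Adj u v ↔ u ≠ v ∧ (TRel u v ∨ TRel v u) := by
  unfold TG
  rw [SimpleGraph.fromRel_adj]

theorem tg_lip (hM : 2 ≤ M) (b : ZMod M) (u v : ZMod M × ZMod k) (h : (TG M k).Adj u v) :
    cyc (v.1 - b) ≤ cyc (u.1 - b) + 1 := by
  rw [tg_adj] at h
  rcases h.2 with h | h
  · rcases h with ⟨_, h⟩ | ⟨h, _⟩
    · have := (cyc_succ hM (u.1 - b)).1
      rw [h, show u.1 + 1 - b = u.1 - b + 1 by ring]
      exact this
    · rw [h]; omega
  · rcases h with ⟨_, h⟩ | ⟨h, _⟩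
    · have := (cyc_succ hM (v.1 - b)).2
      rw [h, show v.1 + 1 - b = v.1 - b + 1 by ring]
      exact this
    · rw [h]; omega

theorem one_ne (hM : 2 ≤ M) : (1 : ZMod M) ≠ 0 := by
  have : Fact (1 < M) := ⟨by omega⟩
  exact one_ne_zero

theorem two_ne (hM : 3 ≤ M) : (2 : ZMod M) ≠ 0 := by
  intro h
  have h2 : ((2 : ℕ) : ZMod M) = ((0 : ℕ) : ZMod M) := by push_cast; exact h
  have : NeZero M := ⟨by omega⟩
  have := natCast_inj_of_lt (by omega) (by omega) h2
  omega

theorem adj_right (hM : 2 ≤ M) (u : ZMod M × ZMod k) : (TG M k).Adj u (u.1 + 1, u.2) := by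
  rw [tg_adj]
  refine ⟨?_, Or.inl (Or.inl ⟨rfl, rfl⟩)⟩
  intro h
  have := congrArg Prod.fst h
  simp only at this
  exact one_ne hM (by simpa using this)

theorem adj_up (hk : 2 ≤ k) (u : ZMod M × ZMod k) : (TG M k).Adj u (u.1, u.2 + 1) := by
  rw [tg_adj]
  refine ⟨?_, Or.inl (Or.inr ⟨rfl, rfl⟩)⟩
  intro h
  have := congrArg Prod.snd h
  simp only at this
  exact one_ne hk (by simpa using this)

theorem walk_right (hM : 2 ≤ M) (u : ZMod M × ZMod k) (n : ℕ) :
    ∃ p : (TG M k).Walk u (u.1 + (n : ZMod M), u.2), p.length = n := by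
  induction n with
  | zero =>
    refine ⟨SimpleGraph.Walk.nil.copy rfl (by simp), by simp⟩
  | succ n ih =>
    obtain ⟨p, hp⟩ := ih
    have h := adj_right (k := k) hM (u.1 + (n : ZMod M), u.2)
    refine ⟨(p.append (SimpleGraph.Walk.cons h SimpleGraph.Walk.nil)).copy rfl ?_, ?_⟩
    · simp only [Prod.mk.injEq, and_true]
      push_cast
      ring
    · simp [hp]

theorem walk_up (hk : 2 ≤ k) (u : ZMod M × ZMod k) (n : ℕ) :
    ∃ p : (TG M k).Walk u (u.1, u.2 + (n : ZMod k)), p.length = n := by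
  induction n with
  | zero =>
    refine ⟨SimpleGraph.Walk.nil.copy rfl (by simp), by simp⟩
  | succ n ih =>
    obtain ⟨p, hp⟩ := ih
    have h := adj_up (M := M) hk (u.1, u.2 + (n : ZMod k))
    refine ⟨(p.append (SimpleGraph.Walk.cons h SimpleGraph.Walk.nil)).copy rfl ?_, ?_⟩
    · simp only [Prod.mk.injEq, true_and]
      push_cast
      ring
    · simp [hp]

theorem walk_h (hM : 2 ≤ M) (x x' : ZMod M) (y : ZMod k) :
    ∃ p : (TG M k).Walk (x, y) (x', y), p.length ≤ M / 2 := by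
  have : NeZero M := ⟨by omega⟩
  have hv := ZMod.val_lt (x' - x)
  rcases Nat.lt_or_ge (M / 2) (x' - x).val with h | h
  · obtain ⟨p, hp⟩ := walk_right (k := k) hM (x', y) (M - (x' - x).val)
    refine ⟨(p.copy rfl ?_).reverse, ?_⟩
    · simp only [Prod.mk.injEq, and_true]
      rw [Nat.cast_sub hv.le, ZMod.natCast_self, ZMod.natCast_zmod_val]
      ring
    · simp only [SimpleGraph.Walk.length_reverse, SimpleGraph.Walk.length_copy, hp]
      omega
  · obtain ⟨p, hp⟩ := walk_right (k := k) hM (x, y) (x' - x).val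
    refine ⟨p.copy rfl ?_, ?_⟩
    · simp only [Prod.mk.injEq, and_true]
      rw [ZMod.natCast_zmod_val]
      ring
    · simp only [SimpleGraph.Walk.length_copy, hp]
      exact h

theorem walk_v (hk : 2 ≤ k) (x : ZMod M) (y y' : ZMod k) :
    ∃ p : (TG M k).Walk (x, y) (x, y'), p.length ≤ k / 2 := by
  have : NeZero k := ⟨by omega⟩
  have hv := ZMod.val_lt (y' - y)
  rcases Nat.lt_or_ge (k / 2) (y' - y).val with h | h
  · obtain ⟨p, hp⟩ := walk_up (M := M) hk (x, y') (k - (y' - y).val)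
    refine ⟨(p.copy rfl ?_).reverse, ?_⟩
    · simp only [Prod.mk.injEq, true_and]
      rw [Nat.cast_sub hv.le, ZMod.natCast_self, ZMod.natCast_zmod_val]
      ring
    · simp only [SimpleGraph.Walk.length_reverse, SimpleGraph.Walk.length_copy, hp]
      omega
  · obtain ⟨p, hp⟩ := walk_up (M := M) hk (x, y) (y' - y).val
    refine ⟨p.copy rfl ?_, ?_⟩
    · simp only [Prod.mk.injEq, true_and]
      rw [ZMod.natCast_zmod_val]
      ring
    · simp only [SimpleGraph.Walk.length_copy, hp]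
      exact h

theorem tg_dist_le (hM : 2 ≤ M) (hk : 2 ≤ k) (u v : ZMod M × ZMod k) :
    (TG M k).dist u v ≤ M / 2 + k / 2 := by
  obtain ⟨x, y⟩ := u
  obtain ⟨x', y'⟩ := v
  obtain ⟨p, hp⟩ := walk_h hM x x' y
  obtain ⟨q, hq⟩ := walk_v hk x' y y'
  refine (SimpleGraph.dist_le (p.append q)).trans ?_
  rw [SimpleGraph.Walk.length_append]
  omega

theorem tg_connected (hM : 2 ≤ M) (hk : 2 ≤ k) : (TG M k).Connected := by
  have : Nonempty (ZMod M × ZMod k) := ⟨(0, 0)⟩
  constructor
  intro u v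
  obtain ⟨x, y⟩ := u
  obtain ⟨x', y'⟩ := v
  obtain ⟨p, _⟩ := walk_h hM x x' y
  obtain ⟨q, _⟩ := walk_v hk x' y y'
  exact ⟨p.append q⟩

theorem tg_diam_le (hM : 2 ≤ M) (hk : 2 ≤ k) : (TG M k).diam ≤ M / 2 + k / 2 := by
  have : NeZero M := ⟨by omega⟩
  have : NeZero k := ⟨by omega⟩
  have : Nonempty (ZMod M × ZMod k) := ⟨(0, 0)⟩
  obtain ⟨u, v, h⟩ := (TG M k).exists_dist_eq_diam
  rw [← h]
  exact tg_dist_le hM hk u v

theorem tg_dist_ge (hM : 2 ≤ M) (hk : 2 ≤ k) (b : ZMod M) (y y' : ZMod k) {R : ℕ}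
    (hR : 2 * R ≤ M) :
    R ≤ (TG M k).dist (b, y) (b + (R : ZMod M), y') := by
  obtain ⟨p, hp⟩ := ((tg_connected hM hk).preconnected (b, y)
    (b + (R : ZMod M), y')).exists_walk_length_eq_dist
  have h := walk_lip (fun u : ZMod M × ZMod k => cyc (u.1 - b)) (tg_lip hM b) p
  simp only [sub_self, add_sub_cancel_left] at h
  have h1 : cyc (0 : ZMod M) = 0 := by unfold cyc; simp
  have h2 : cyc ((R : ℕ) : ZMod M) = R := by
    unfold cyc
    rw [ZMod.val_natCast, Nat.mod_eq_of_lt (by omega)]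
    omega
  rw [h1, h2, hp] at h
  omega

theorem tg_transitive (u v : ZMod M × ZMod k) : ∃ φ : TG M k ≃g TG M k, φ u = v := by
  refine ⟨⟨Equiv.addRight (v - u), ?_⟩, ?_⟩
  · intro a b
    rw [tg_adj, tg_adj]
    simp only [Equiv.coe_addRight, ne_eq, add_left_inj, TRel, Prod.fst_add, Prod.snd_add]
    have h1 : ∀ a b c : ZMod M, b + c = a + c + 1 ↔ b = a + 1 := by
      intro a b c
      constructor
      · intro h
        have : b + c = (a + 1) + c := by rw [h]; ring
        exact add_right_cancel this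
      · intro h; rw [h]; ring
    have h2 : ∀ a b c : ZMod k, b + c = a + c + 1 ↔ b = a + 1 := by
      intro a b c
      constructor
      · intro h
        have : b + c = (a + 1) + c := by rw [h]; ring
        exact add_right_cancel this
      · intro h; rw [h]; ring
    rw [h1, h2, h1, h2]
  · show u + (v - u) = v
    abel

theorem tg_regular (hM : 3 ≤ M) (hk : 3 ≤ k) (u : ZMod M × ZMod k) :
    ((TG M k).neighborSet u).ncard = 4 := by
  have e : (TG M k).neighborSet u =
      ({(u.1 + 1, u.2), (u.1 - 1, u.2), (u.1, u.2 + 1), (u.1, u.2 - 1)} : Set _) := by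
    ext v
    rw [SimpleGraph.mem_neighborSet, tg_adj]
    simp only [Set.mem_insert_iff, Set.mem_singleton_iff]
    constructor
    · rintro ⟨_, h | h⟩
      · rcases h with ⟨h1, h2⟩ | ⟨h1, h2⟩
        · left; exact Prod.ext h2 h1.symm
        · right; right; left; exact Prod.ext h1.symm h2
      · rcases h with ⟨h1, h2⟩ | ⟨h1, h2⟩
        · right; left
          exact Prod.ext (by simp only; rw [h2]; ring) h1
        · right; right; right
          exact Prod.ext h1 (by simp only; rw [h2]; ring)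
    · have hh1 := one_ne (M := M) (by omega)
      have hh2 := one_ne (M := k) (by omega)
      rintro (h | h | h | h) <;> subst h
      · refine ⟨fun h => hh1 ?_, Or.inl (Or.inl ⟨rfl, rfl⟩)⟩
        simpa using congrArg Prod.fst h
      · refine ⟨fun h => hh1 ?_, Or.inr (Or.inl ⟨rfl, by simp⟩)⟩
        have := congrArg Prod.fst h
        simp only at this
        have h3 : (1 : ZMod M) = u.1 - (u.1 - 1) := by ring
        rw [h3, ← this, sub_self]
      · refine ⟨fun h => hh2 ?_, Or.inl (Or.inr ⟨rfl, rfl⟩)⟩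
        simpa using congrArg Prod.snd h
      · refine ⟨fun h => hh2 ?_, Or.inr (Or.inr ⟨rfl, by simp⟩)⟩
        have := congrArg Prod.snd h
        simp only at this
        have h3 : (1 : ZMod k) = u.2 - (u.2 - 1) := by ring
        rw [h3, ← this, sub_self]
  have t1 := two_ne hM
  have t2 := two_ne hk
  have o1 := one_ne (M := M) (by omega)
  have o2 := one_ne (M := k) (by omega)
  rw [e]
  rw [Set.ncard_insert_of_notMem, Set.ncard_insert_of_notMem, Set.ncard_insert_of_notMem,
    Set.ncard_singleton]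
  · rw [Set.mem_singleton_iff]
    intro h
    have := congrArg Prod.snd h
    simp only at this
    apply t2
    have h3 : (2 : ZMod k) = (u.2 + 1) - (u.2 - 1) := by ring
    rw [h3, this, sub_self]
  · simp only [Set.mem_insert_iff, Set.mem_singleton_iff, not_or]
    refine ⟨fun h => o2 ?_, fun h => o2 ?_⟩
    · have := congrArg Prod.snd h
      simp only at this
      have h3 : (1 : ZMod k) = (u.2 + 1) - u.2 := by ring
      rw [h3, ← this, sub_self]
    · have := congrArg Prod.snd h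
      simp only at this
      have h3 : (1 : ZMod k) = u.2 - (u.2 - 1) := by ring
      rw [h3, ← this, sub_self]
  · simp only [Set.mem_insert_iff, Set.mem_singleton_iff, not_or]
    refine ⟨fun h => t1 ?_, fun h => o2 ?_, fun h => o2 ?_⟩
    · have := congrArg Prod.fst h
      simp only at this
      have h3 : (2 : ZMod M) = (u.1 + 1) - (u.1 - 1) := by ring
      rw [h3, this, sub_self]
    · have := congrArg Prod.snd h
      simp only at this
      have h3 : (1 : ZMod k) = (u.2 + 1) - u.2 := by ring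
      rw [h3, ← this, sub_self]
    · have := congrArg Prod.snd h
      simp only at this
      have h3 : (1 : ZMod k) = u.2 - (u.2 - 1) := by ring
      rw [h3, ← this, sub_self]

end Pool.Agent.Q211.Thin
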