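import Pool.Agent.Q211.Thin.Gamma

/-!
Percolation on the torus `ZMod M × ZMod k`: components are confined by uncrossed pieces.
-/

namespace Pool.Agent.Q211.Thin

open MeasureTheory

abbrev TCfg (M k : ℕ) := ZMod M → ZMod k → Bool → Bool

def TStep {M k : ℕ} (τ : TCfg M k) (u v : ZMod M × ZMod k) : Prop :=
  (u.2 = v.2 ∧ v.1 = u.1 + 1 ∧ τ u.1 u.2 true = true) ∨
  (u.1 = v.1 ∧ v.2 = u.2 + 1 ∧ τ u.1 u.2 false = true)

def TO {M k : ℕ} (τ : TCfg M k) : SimpleGraph (ZMod M × ZMod k) :=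
  SimpleGraph.fromRel (TStep τ)

def win {M k : ℕ} (τ : TCfg M k) (b : ZMod M) (t : ZMod k) : Cfg k :=
  fun x j s => τ (b + (x : ZMod M)) (t + j) s

variable {M k : ℕ}

theorem to_adj {τ : TCfg M k} {u v : ZMod M × ZMod k} :
    (TO τ).Adj u v ↔ u ≠ v ∧ (TStep τ u v ∨ TStep τ v u) := by
  unfold TO
  rw [SimpleGraph.fromRel_adj]

theorem win_shift (τ : TCfg M k) (b : ZMod M) (t t' : ZMod k) (s : ℕ) :
    shift (win τ b t) s t' = win τ (b + (s : ZMod M)) (t + t') := by
  funext x j e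
  simp only [shift, win]
  push_cast
  rw [add_assoc, add_assoc]

theorem op_reach_le {c : Cfg k} {a b : ℕ} {u v : ℕ × ZMod k} (h : (Op c a b).Reachable u v)
    (hu : u.1 ≤ b) : v.1 ≤ b := by
  obtain ⟨w⟩ := h
  induction w with
  | nil => exact hu
  | cons hadj _p ih =>
    rename_i u w v
    apply ih
    rw [op_adj] at hadj
    rcases hadj.2 with h | h <;>
      rcases h with ⟨h1, h2, h3, h4, h5⟩ | ⟨h1, h2, h3, h4, h5⟩ <;> omega

def Good (c : Cfg k) (L A : ℕ) (x : ℕ) (j : ZMod k) : Prop :=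
  (L ≤ x ∧ x ≤ A) ∨ (A ≤ x ∧ ∃ i, (Op c A (A + L)).Reachable (A, i) (x, j)) ∨
    (x ≤ L ∧ ∃ i, (Op c 0 L).Reachable (L, i) (x, j))

section
variable {c : Cfg k} {L A : ℕ} (hL : 1 ≤ L) (hA : L ≤ A) (h0 : ¬ Cr c 0 L)
  (h1 : ¬ Cr c A (A + L))
include hL hA h0 h1

theorem good_bd {x : ℕ} {j : ZMod k} (h : Good c L A x j) : 1 ≤ x ∧ x < A + L := by
  rcases h with h | ⟨h2, i, h⟩ | ⟨h2, i, h⟩
  · omega
  · have h3 := op_reach_le h (by simp)
    simp only at h3
    refine ⟨by omega, ?_⟩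
    rcases Nat.lt_or_ge x (A + L) with h4 | h4
    · exact h4
    · exfalso
      have : x = A + L := by omega
      subst this
      exact h1 ⟨i, j, h⟩
  · refine ⟨?_, by omega⟩
    rcases Nat.eq_zero_or_pos x with h4 | h4
    · subst h4
      exact absurd ⟨j, i, h.symm⟩ h0
    · exact h4

theorem good_cases {x : ℕ} {j : ZMod k} (h : Good c L A x j) :
    (x < L ∧ ∃ i, (Op c 0 L).Reachable (L, i) (x, j)) ∨ (L ≤ x ∧ x ≤ A) ∨
      (A < x ∧ ∃ i, (Op c A (A + L)).Reachable (A, i) (x, j)) := by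
  rcases h with h | ⟨h2, h⟩ | ⟨h2, h⟩
  · exact Or.inr (Or.inl h)
  · rcases Nat.lt_or_ge A x with h3 | h3
    · exact Or.inr (Or.inr ⟨h3, h⟩)
    · exact Or.inr (Or.inl ⟨by omega, h3⟩)
  · rcases Nat.lt_or_ge x L with h3 | h3
    · exact Or.inl ⟨h3, h⟩
    · exact Or.inr (Or.inl ⟨h3, by omega⟩)

/-- a step inside the left wall -/
theorem good_right {x : ℕ} {j : ZMod k} (h : Good c L A x j) (ho : c x j true = true) :
    Good c L A (x + 1) j := by
  have hb := good_bd hL hA h0 h1 h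
  rcases good_cases hL hA h0 h1 h with ⟨h2, i, h3⟩ | ⟨h2, h3⟩ | ⟨h2, i, h3⟩
  · refine Or.inr (Or.inr ⟨by omega, i, h3.trans ?_⟩)
    apply SimpleGraph.Adj.reachable
    rw [op_adj]
    exact ⟨by simp, Or.inl (Or.inl ⟨rfl, rfl, by simp, by simp only; omega, ho⟩)⟩
  · rcases Nat.lt_or_ge x A with h4 | h4
    · exact Or.inl ⟨by omega, by omega⟩
    · have : x = A := by omega
      subst this
      refine Or.inr (Or.inl ⟨by omega, j, ?_⟩)
      apply SimpleGraph.Adj.reachable
      rw [op_adj]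
      exact ⟨by simp, Or.inl (Or.inl ⟨rfl, rfl, by simp, by simp only; omega, ho⟩)⟩
  · refine Or.inr (Or.inl ⟨by omega, i, h3.trans ?_⟩)
    apply SimpleGraph.Adj.reachable
    rw [op_adj]
    exact ⟨by simp, Or.inl (Or.inl ⟨rfl, rfl, by simp only; omega, by simp only; omega, ho⟩)⟩

theorem good_left {x : ℕ} {j : ZMod k} (h : Good c L A (x + 1) j) (ho : c x j true = true) :
    Good c L A x j := by
  have hb := good_bd hL hA h0 h1 h
  rcases good_cases hL hA h0 h1 h with ⟨h2, i, h3⟩ | ⟨h2, h3⟩ | ⟨h2, i, h3⟩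
  · refine Or.inr (Or.inr ⟨by omega, i, h3.trans ?_⟩)
    apply SimpleGraph.Adj.reachable
    rw [op_adj]
    exact ⟨by simp, Or.inr (Or.inl ⟨rfl, rfl, by simp, by simp only; omega, ho⟩)⟩
  · rcases Nat.lt_or_ge L (x + 1) with h4 | h4
    · exact Or.inl ⟨by omega, by omega⟩
    · have : x + 1 = L := by omega
      refine Or.inr (Or.inr ⟨by omega, j, ?_⟩)
      rw [← this]
      apply SimpleGraph.Adj.reachable
      rw [op_adj]
      exact ⟨by simp, Or.inr (Or.inl ⟨rfl, rfl, by simp, by simp only; omega, ho⟩)⟩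
  · refine Or.inr (Or.inl ⟨by omega, i, h3.trans ?_⟩)
    apply SimpleGraph.Adj.reachable
    rw [op_adj]
    exact ⟨by simp, Or.inr (Or.inl ⟨rfl, rfl, by simp only; omega, by simp only; omega, ho⟩)⟩

theorem good_vert {x : ℕ} {j j' : ZMod k} (h : Good c L A x j)
    (ho : (j' = j + 1 ∧ c x j false = true) ∨ (j = j' + 1 ∧ c x j' false = true)) :
    Good c L A x j' := by
  have hb := good_bd hL hA h0 h1 h
  by_cases hjj : j = j'
  · rw [← hjj]; exact h
  rcases good_cases hL hA h0 h1 h with ⟨h2, i, h3⟩ | ⟨h2, h3⟩ | ⟨h2, i, h3⟩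
  · refine Or.inr (Or.inr ⟨by omega, i, h3.trans ?_⟩)
    apply SimpleGraph.Adj.reachable
    rw [op_adj]
    refine ⟨by simp [hjj], ?_⟩
    rcases ho with ⟨ho1, ho2⟩ | ⟨ho1, ho2⟩
    · exact Or.inl (Or.inr ⟨rfl, ho1, by simp, by simp only; omega, ho2⟩)
    · exact Or.inr (Or.inr ⟨rfl, ho1, by simp, by simp only; omega, ho2⟩)
  · exact Or.inl ⟨h2, h3⟩
  · refine Or.inr (Or.inl ⟨by omega, i, h3.trans ?_⟩)
    apply SimpleGraph.Adj.reachable
    rw [op_adj]
    refine ⟨by simp [hjj], ?_⟩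
    rcases ho with ⟨ho1, ho2⟩ | ⟨ho1, ho2⟩
    · exact Or.inl (Or.inr ⟨rfl, ho1, by simp only; omega, by simp only; omega, ho2⟩)
    · exact Or.inr (Or.inr ⟨rfl, ho1, by simp only; omega, by simp only; omega, ho2⟩)

end

theorem confined {τ : TCfg M k} {b : ZMod M} {L A : ℕ} (hL : 1 ≤ L) (hA : L ≤ A)
    (h0 : ¬ Cr (win τ b 0) 0 L) (h1 : ¬ Cr (win τ b 0) A (A + L)) {x : ℕ} (hx : L ≤ x)
    (hxA : x ≤ A) {u v : ZMod M × ZMod k} (hu : u.1 = b + (x : ZMod M))
    (h : (TO τ).Reachable u v) :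
    ∃ x' : ℕ, x' < A + L ∧ v.1 = b + (x' : ZMod M) := by
  suffices h2 : ∃ x' : ℕ, Good (win τ b 0) L A x' v.2 ∧ v.1 = b + (x' : ZMod M) by
    obtain ⟨x', h3, h4⟩ := h2
    exact ⟨x', (good_bd hL hA h0 h1 h3).2, h4⟩
  have hstart : ∃ x' : ℕ, Good (win τ b 0) L A x' u.2 ∧ u.1 = b + (x' : ZMod M) :=
    ⟨x, Or.inl ⟨hx, hxA⟩, hu⟩
  clear hu
  obtain ⟨w⟩ := h
  induction w with
  | nil => exact hstart
  | cons hadj _p ih =>
    rename_i u w v
    apply ih
    obtain ⟨y, hy, hyu⟩ := hstart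
    have hb := good_bd hL hA h0 h1 hy
    rw [to_adj] at hadj
    rcases hadj.2 with h | h
    · rcases h with ⟨q1, q2, q3⟩ | ⟨q1, q2, q3⟩
      · refine ⟨y + 1, ?_, ?_⟩
        · rw [← q1]
          apply good_right hL hA h0 h1 hy
          simp only [win, zero_add]
          rw [← hyu]
          exact q3
        · rw [q2, hyu]
          push_cast
          ring
      · refine ⟨y, ?_, ?_⟩
        · apply good_vert hL hA h0 h1 hy
          left
          refine ⟨q2, ?_⟩
          simp only [win, zero_add]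
          rw [← hyu]
          exact q3
        · rw [← q1, hyu]
    · rcases h with ⟨q1, q2, q3⟩ | ⟨q1, q2, q3⟩
      · obtain ⟨z, rfl⟩ : ∃ z, y = z + 1 := ⟨y - 1, by omega⟩
        have hw1 : w.1 = b + (z : ZMod M) := by
          have : w.1 + 1 = b + (z : ZMod M) + 1 := by
            rw [← q2, hyu]
            push_cast
            ring
          exact add_right_cancel this
        refine ⟨z, ?_, hw1⟩
        rw [q1]
        apply good_left hL hA h0 h1 hy
        simp only [win, zero_add]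
        rw [← hw1, ← q1]
        exact q3
      · refine ⟨y, ?_, ?_⟩
        · apply good_vert hL hA h0 h1 hy
          right
          refine ⟨q2, ?_⟩
          simp only [win, zero_add]
          rw [← hyu, ← q1]
          exact q3
        · rw [q1, hyu]

theorem ncard_confined [NeZero M] [NeZero k] (S : Set (ZMod M × ZMod k)) (b : ZMod M) (B : ℕ)
    (h : ∀ v ∈ S, ∃ x' : ℕ, x' < B ∧ v.1 = b + (x' : ZMod M)) : S.ncard ≤ B * k := by
  classical
  have hsub : S ⊆ ((Finset.range B ×ˢ (Finset.univ : Finset (ZMod k))).image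
      (fun y : ℕ × ZMod k => ((b + (y.1 : ZMod M), y.2) : ZMod M × ZMod k)) : Finset _) := by
    intro v hv
    obtain ⟨x', h1, h2⟩ := h v hv
    rw [Finset.mem_coe, Finset.mem_image]
    exact ⟨(x', v.2), by simp [h1], by rw [← h2]⟩
  refine (Set.ncard_le_ncard hsub (Finset.finite_toSet _)).trans ?_
  rw [Set.ncard_coe_finset]
  refine Finset.card_image_le.trans ?_
  rw [Finset.card_product, Finset.card_range, Finset.card_univ, ZMod.card]

/-- If all the pieces `[iL, (i+1)L]` of the torus are uncrossed then all components are small. -/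
theorem comp_small [NeZero M] [NeZero k] {τ : TCfg M k} {L : ℕ} (hL : 1 ≤ L) (hq : 4 ≤ M / L)
    (hw : ∀ i < M / L, ¬ Cr (win τ ((i * L : ℕ) : ZMod M) 0) 0 L) (v : ZMod M × ZMod k) :
    {u | (TO τ).Reachable v u}.ncard ≤ 4 * L * k := by
  set q := M / L with hqdef
  have hM1 : q * L ≤ M := Nat.div_mul_le_self M L
  have hM2 : M < q * L + L := by
    have := Nat.lt_div_mul_add hL (a := M)
    exact this
  have main : ∀ (i i' A x : ℕ), i < q → i' < q → L ≤ A → A + L ≤ M → A + L ≤ 4 * L →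
      ((i * L : ℕ) : ZMod M) + (A : ZMod M) = ((i' * L : ℕ) : ZMod M) → L ≤ x → x ≤ A →
      v.1 = ((i * L : ℕ) : ZMod M) + (x : ZMod M) →
      {u | (TO τ).Reachable v u}.ncard ≤ 4 * L * k := by
    intro i i' A x hi hi' hA hAM hA4 hcast hx hxA hv
    have h0 := hw i hi
    have h1 : ¬ Cr (win τ ((i * L : ℕ) : ZMod M) 0) A (A + L) := by
      have h2 := hw i' hi'
      rw [← hcast, ← add_zero (0 : ZMod k), ← win_shift, cr_shift] at h2
      simpa using h2
    refine (ncard_confined _ ((i * L : ℕ) : ZMod M) (A + L) ?_).trans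
      (Nat.mul_le_mul_right _ hA4)
    intro u hu
    exact confined hL hA h0 h1 hx hxA hv hu
  have hvval : ((v.1.val : ℕ) : ZMod M) = v.1 := ZMod.natCast_zmod_val _
  have hvlt := ZMod.val_lt v.1
  set y := v.1.val with hy
  have hMcast : ((M : ℕ) : ZMod M) = 0 := ZMod.natCast_self M
  set a := y / L with ha
  have hy1 : a * L ≤ y := Nat.div_mul_le_self y L
  have hy2 : y < a * L + L := Nat.lt_div_mul_add hL (a := y)
  have haq : a ≤ q := Nat.div_le_div_right hvlt.le
  rcases Nat.eq_zero_or_pos a with ha0 | ha0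
  · -- the first piece
    obtain ⟨r, hr⟩ : ∃ r, q = r + 4 := ⟨q - 4, by omega⟩
    rw [hr] at hM1 hM2
    have e1 : (r + 4) * L = r * L + 4 * L := by ring
    have e2 : (r + 3) * L = r * L + 3 * L := by ring
    rw [e1] at hM1 hM2
    rw [ha0] at hy1 hy2
    refine main (r + 3) 1 (M - (r * L + 3 * L) + L) (y + (M - (r * L + 3 * L))) (by omega)
      (by omega) (by omega) (by omega) (by omega) ?_ (by omega) (by omega) ?_
    · rw [← Nat.cast_add, show (r + 3) * L + (M - (r * L + 3 * L) + L) = M + 1 * L by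
        rw [e2]; omega, Nat.cast_add, hMcast, zero_add]
    · rw [← Nat.cast_add, show (r + 3) * L + (y + (M - (r * L + 3 * L))) = M + y by
        rw [e2]; omega, Nat.cast_add, hMcast, zero_add, hvval]
  · obtain ⟨a', ha'⟩ : ∃ a', a = a' + 1 := ⟨a - 1, by omega⟩
    rw [ha'] at hy1 hy2
    have e1 : (a' + 1) * L = a' * L + L := by ring
    rw [e1] at hy1 hy2
    rcases Nat.lt_or_ge (a' + 2) q with h5 | h5
    · -- right wall a' + 2
      have e3 : (a' + 3) * L ≤ q * L := Nat.mul_le_mul_right _ (by omega)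
      have e4 : (a' + 3) * L = a' * L + 3 * L := by ring
      rw [e4] at e3
      refine main a' (a' + 2) (2 * L) (y - a' * L) (by omega)
        (by omega) (by omega) (by omega) (by omega) ?_ (by omega) (by omega) ?_
      · rw [← Nat.cast_add]
        congr 1
        ring
      · rw [← Nat.cast_add, show a' * L + (y - a' * L) = y by omega, hvval]
    · -- right wall 0
      obtain ⟨r, hr⟩ : ∃ r, q = r + 4 := ⟨q - 4, by omega⟩
      rw [hr] at hM1 hM2 h5 haq
      have e3 : (r + 4) * L = r * L + 4 * L := by ring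
      rw [e3] at hM1 hM2
      have h6 : a' = r + 2 ∨ a' = r + 3 := by omega
      rcases h6 with h6 | h6
      · have e5 : (r + 2) * L = r * L + 2 * L := by ring
        rw [h6, e5] at hy1 hy2
        refine main a' 0 (M - (r * L + 2 * L)) (y - (r * L + 2 * L)) (by omega)
          (by omega) (by omega) (by omega) (by omega) ?_ (by omega) (by omega) ?_
        · rw [← Nat.cast_add, h6, e5, show r * L + 2 * L + (M - (r * L + 2 * L)) = M by omega,
            hMcast]
          simp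
        · rw [← Nat.cast_add, h6, e5, show r * L + 2 * L + (y - (r * L + 2 * L)) = y by omega,
            hvval]
      · have e5 : (r + 3) * L = r * L + 3 * L := by ring
        rw [h6, e5] at hy1 hy2
        refine main a' 0 (M - (r * L + 3 * L)) (y - (r * L + 3 * L)) (by omega)
          (by omega) (by omega) (by omega) (by omega) ?_ (by omega) (by omega) ?_
        · rw [← Nat.cast_add, h6, e5, show r * L + 3 * L + (M - (r * L + 3 * L)) = M by omega,
            hMcast]
          simp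
        · rw [← Nat.cast_add, h6, e5, show r * L + 3 * L + (y - (r * L + 3 * L)) = y by omega,
            hvval]

end Pool.Agent.Q211.Thin
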